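import Pool.Agent.P.MP_c1aa6a_an.ZE.Red

/-! A Borel action of a Polish group embeds in a continuous action on a compact metric space. -/

set_option autoImplicit false
open MeasureTheory Set Filter Topology

namespace Pool.Agent.P.MP_c1aa6a_an.ZE

open Mix

theorem mg {G : Type} [TopologicalSpace G] {s t : Set G} (hs : IsMeagre s)
    (h : ∀ u ∈ t, u ∈ s) : IsMeagre t := hs.mono h

section baire

variable {G : Type} [TopologicalSpace G] [MeasurableSpace G] [BorelSpace G]

theorem exists_open {S : Set G} (hS : MeasurableSet S) (h : ¬ IsMeagre S) :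
    ∃ U, IsOpen U ∧ (S ∩ U).Nonempty ∧ IsMeagre (U \ S) := by
  obtain ⟨U, hU, he⟩ := hS.residualEq_isOpen
  refine ⟨U, hU, ?_, ?_⟩
  · by_contra hc
    refine h ?_
    filter_upwards [he] with g hg h1
    exact hc ⟨g, h1, hg.mp h1⟩
  · filter_upwards [he] with g hg h1
    exact h1.2 (hg.mpr h1.1)

/-- The category quantifier preserves measurability. -/
theorem meas_meagre [BaireSpace G] [SecondCountableTopology G] {X : Type} [MeasurableSpace X]
    (S : Set (G × X)) (hS : MeasurableSet S) :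
    ∀ V : Set G, IsOpen V → MeasurableSet {x | IsMeagre (V ∩ {u | (u, x) ∈ S})} := by
  induction S, hS using MeasurableSpace.induction_on_inter generateFrom_prod.symm isPiSystem_prod with
  | empty =>
    intro V _
    simp [IsMeagre.empty]
  | basic t ht =>
    obtain ⟨s, -, t, ht, rfl⟩ := ht
    intro V _
    have : {x | IsMeagre (V ∩ {u | (u, x) ∈ s ×ˢ t})} = tᶜ ∪ {_x | IsMeagre (V ∩ s)} := by
      ext x
      by_cases hx : x ∈ t <;> simp [hx, IsMeagre.empty]
    rw [this]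
    exact (MeasurableSet.compl ht).union (MeasurableSet.const _)
  | compl S hS ih =>
    intro V hV
    have hb := TopologicalSpace.isBasis_countableBasis G
    have : {x | IsMeagre (V ∩ {u | (u, x) ∈ Sᶜ})} = ⋂ W ∈ TopologicalSpace.countableBasis G,
        {_x | ¬ (W ⊆ V ∧ W.Nonempty)} ∪ {x | IsMeagre (W ∩ {u | (u, x) ∈ S})}ᶜ := by
      ext x
      simp only [mem_iInter, mem_union, mem_ofPred_eq, mem_compl_iff]
      constructor
      · intro h W hW
        by_contra hc
        rw [not_or, not_not, not_not] at hc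
        refine not_isMeagre_of_isOpen (hb.isOpen hW) hc.1.2 ((h.union hc.2).mono fun u hu => ?_)
        by_cases h1 : (u, x) ∈ S
        · exact Or.inr ⟨hu, h1⟩
        · exact Or.inl ⟨hc.1.1 hu, h1⟩
      · intro h
        by_contra hc
        obtain ⟨U, hU, ⟨g, hg1, hg2⟩, hm⟩ := exists_open
          (hV.measurableSet.inter (measurable_prodMk_right hS).compl) hc
        obtain ⟨W, hW, hg, hWs⟩ := hb.exists_subset_of_mem_open (mem_inter hg2 hg1.1)
          (hU.inter hV)
        refine (h W hW).elim (fun h1 => h1 ⟨fun u hu => (hWs hu).2, g, hg⟩)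
          fun h1 => h1 (mg hm fun u hu => ⟨(hWs hu.1).1, fun h2 => h2.2 hu.2⟩)
    rw [this]
    exact MeasurableSet.biInter (TopologicalSpace.countable_countableBasis G) fun W hW =>
      (MeasurableSet.const _).union (ih W (hb.isOpen hW)).compl
  | iUnion f _ _ ih =>
    intro V hV
    have : {x | IsMeagre (V ∩ {u | (u, x) ∈ ⋃ i, f i})} =
        ⋂ i, {x | IsMeagre (V ∩ {u | (u, x) ∈ f i})} := by
      ext x
      simp only [mem_iInter, mem_ofPred_eq]
      refine ⟨fun h i => mg h fun u hu => ⟨hu.1, mem_iUnion.2 ⟨i, hu.2⟩⟩,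
        fun h => (isMeagre_iUnion h).mono fun u hu => ?_⟩
      obtain ⟨i, hi⟩ := mem_iUnion.1 hu.2
      exact mem_iUnion.2 ⟨i, hu.1, hi⟩
    rw [this]
    exact MeasurableSet.iInter fun i => ih i V hV

end baire

section lip

variable {G : Type} [TopologicalSpace G] [Group G] {N : G → ℝ}

/-- Left invariant balls. -/
def bl (N : G → ℝ) (h : G) (r : ℝ) : Set G := {u | N (h⁻¹ * u) < r}

theorem tendsto_N (hN : IsNorm N) : Tendsto N (𝓝 1) (𝓝 0) := by
  rw [Metric.tendsto_nhds]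
  intro ε hε
  filter_upwards [hN.nhds ε hε] with g hg
  rwa [Real.dist_eq, sub_zero, abs_of_nonneg (hN.nonneg g)]

theorem tendsto_N' [IsTopologicalGroup G] (hN : IsNorm N) {Z : Type} {l : Filter Z} {a b : Z → G}
    {c : G} (ha : Tendsto a l (𝓝 c)) (hb : Tendsto b l (𝓝 c)) :
    Tendsto (fun z => N ((a z)⁻¹ * b z)) l (𝓝 0) := by
  have := ha.inv.mul hb
  rw [inv_mul_cancel] at this
  exact (tendsto_N hN).comp this

theorem open_bl [IsTopologicalGroup G] (hN : IsNorm N) (h : G) (r : ℝ) : IsOpen (bl N h r) := by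
  rw [isOpen_iff_mem_nhds]
  intro u hu
  have h1 := tendsto_N' hN (tendsto_const_nhds (x := u)) (tendsto_id (x := 𝓝 u))
  filter_upwards [h1.eventually (gt_mem_nhds (sub_pos.2 hu))] with v hv
  have := Baf.ntri hN h u v
  change N (h⁻¹ * v) < r
  simp only [id] at hv
  linarith

/-- Distance to the points where `A` is locally non meagre, cut at one. -/
noncomputable def rho (N : G → ℝ) (A : Set G) (h : G) : ℝ :=
  sInf (insert 1 {r | ¬ IsMeagre (bl N h r ∩ A)})

theorem rho_lb (hN : IsNorm N) (A : Set G) (h : G) :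
    (0 : ℝ) ∈ lowerBounds (insert 1 {r | ¬ IsMeagre (bl N h r ∩ A)}) := by
  rintro r (rfl | hr)
  · exact zero_le_one
  · obtain ⟨u, hu, -⟩ := nonempty_of_not_isMeagre hr
    exact (hN.nonneg _).trans (le_of_lt hu)

theorem rho_lt (hN : IsNorm N) (A : Set G) (h : G) (s : ℝ) :
    rho N A h < s ↔ 1 < s ∨ ¬ IsMeagre (bl N h s ∩ A) := by
  rw [rho, csInf_lt_iff ⟨0, rho_lb hN A h⟩ (insert_nonempty _ _)]
  constructor
  · rintro ⟨r, rfl | hr, hs⟩
    · exact Or.inl hs
    · exact Or.inr fun h1 => hr (mg h1 fun u hu => ⟨lt_trans hu.1 hs, hu.2⟩)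
  · rintro (h1 | h1)
    · exact ⟨1, mem_insert _ _, h1⟩
    · by_contra hc
      refine h1 ((isMeagre_iUnion (f := fun k : ℕ => bl N h (s - 1 / (k + 1)) ∩ A)
        fun k => ?_).mono fun u hu => ?_)
      · by_contra h2
        exact hc ⟨_, mem_insert_of_mem _ h2, sub_lt_self _ Nat.one_div_pos_of_nat⟩
      · have h3 : 0 < s - N (h⁻¹ * u) := sub_pos.2 hu.1
        obtain ⟨k, hk⟩ := exists_nat_one_div_lt h3
        exact mem_iUnion.2 ⟨k, (by linarith : N (h⁻¹ * u) < s - 1 / (k + 1)), hu.2⟩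

theorem rho_mem (hN : IsNorm N) (A : Set G) (h : G) : rho N A h ∈ Icc (0 : ℝ) 1 :=
  ⟨le_csInf (insert_nonempty _ _) (rho_lb hN A h), csInf_le ⟨0, rho_lb hN A h⟩ (mem_insert _ _)⟩

theorem rho_lip (hN : IsNorm N) (A : Set G) (g h : G) : rho N A g ≤ rho N A h + N (g⁻¹ * h) := by
  refine le_of_forall_gt fun s hs => ?_
  have h0 := hN.nonneg (g⁻¹ * h)
  rcases (rho_lt hN A h (s - N (g⁻¹ * h))).1 (by linarith) with h1 | h1
  · exact (rho_lt hN A g s).2 (Or.inl (by linarith))
  · refine (rho_lt hN A g s).2 (Or.inr fun h2 => h1 (mg h2 fun u hu => ⟨?_, hu.2⟩))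
    have h3 := Baf.ntri hN g h u
    have h4 : N (h⁻¹ * u) < s - N (g⁻¹ * h) := hu.1
    change N (g⁻¹ * u) < s
    linarith

theorem rho_mul [IsTopologicalGroup G] (N : G → ℝ) (A : Set G) (g h : G) :
    rho N ((fun u => g * u) ⁻¹' A) h = rho N A (g * h) := by
  have key : ∀ (g : G) (S : Set G), IsMeagre S → IsMeagre ((fun u => g * u) ⁻¹' S) :=
    fun g S hS => hS.preimage_of_isOpenMap (continuous_const_mul g) (isOpenMap_mul_left g)
  have : ∀ r, IsMeagre (bl N h r ∩ (fun u => g * u) ⁻¹' A) ↔ IsMeagre (bl N (g * h) r ∩ A) :=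
    fun r => ⟨fun h1 => (key g⁻¹ _ h1).mono fun u hu => by simpa [bl, mul_assoc] using hu,
      fun h1 => (key g _ h1).mono fun u hu => by simpa [bl, mul_assoc] using hu⟩
  simp only [rho, this]

theorem rho_inj [IsTopologicalGroup G] [BaireSpace G] [MeasurableSpace G] [BorelSpace G]
    (hN : IsNorm N) {A A' : Set G} (hA : MeasurableSet A) (hA' : MeasurableSet A')
    (h : rho N A = rho N A') : IsMeagre (A \ A') := by
  by_contra hc
  obtain ⟨U, hU, ⟨g, -, hg⟩, hm⟩ := exists_open (hA.diff hA') hc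
  obtain ⟨ε, hε, hs⟩ := hN.basis ((fun u => g * u) ⁻¹' U)
    ((continuous_const_mul g).continuousAt.preimage_mem_nhds (hU.mem_nhds (by simpa using hg)))
  have h1 : bl N g (min ε 1) ⊆ U := fun u hu => by
    simpa using hs (lt_of_lt_of_le hu (min_le_left _ _) : N (g⁻¹ * u) < ε)
  have h2 : IsMeagre (bl N g (min ε 1) ∩ A') := mg hm fun u hu => ⟨h1 hu.1, fun h => h.2 hu.2⟩
  have h3 : IsMeagre (bl N g (min ε 1) ∩ A) := by
    by_contra h3
    have h4 := (rho_lt hN A g _).2 (Or.inr h3)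
    rw [h, rho_lt hN] at h4
    exact h4.elim (fun h5 => absurd (min_le_right ε 1) (not_le.2 h5)) fun h5 => h5 h2
  refine not_isMeagre_of_isOpen (open_bl hN g (min ε 1)) ⟨g, ?_⟩ ((h3.union hm).mono fun u hu => ?_)
  · change N (g⁻¹ * g) < _
    rw [inv_mul_cancel, hN.one]
    exact lt_min hε one_pos
  · by_cases h4 : u ∈ A
    · exact Or.inl ⟨hu, h4⟩
    · exact Or.inr ⟨h1 hu, fun h => h4 h.1⟩

/-- Sequences of Lipschitz functions on the group. -/
def Lp (N : G → ℝ) : Type :=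
  {φ : ℕ × G → ℝ // (∀ p, φ p ∈ Icc (0 : ℝ) 1) ∧ ∀ n g h, φ (n, g) ≤ φ (n, h) + N (g⁻¹ * h)}

instance (N : G → ℝ) : TopologicalSpace (Lp N) := instTopologicalSpaceSubtype

instance (N : G → ℝ) : MulAction G (Lp N) where
  smul g φ := ⟨fun p => φ.1 (p.1, g⁻¹ * p.2), fun _ => φ.2.1 _, fun n a b => by
    simpa [mul_assoc] using φ.2.2 n (g⁻¹ * a) (g⁻¹ * b)⟩
  one_smul φ := Subtype.ext (funext fun p => by
    change φ.1 (p.1, 1⁻¹ * p.2) = _
    rw [inv_one, one_mul])
  mul_smul g h φ := Subtype.ext (funext fun p => by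
    change φ.1 (p.1, (g * h)⁻¹ * p.2) = φ.1 (p.1, h⁻¹ * (g⁻¹ * p.2))
    rw [mul_inv_rev, mul_assoc])

omit [TopologicalSpace G] in
theorem cont_ev (N : G → ℝ) (p : ℕ × G) : Continuous fun φ : Lp N => φ.1 p :=
  (continuous_apply p).comp continuous_subtype_val

theorem abs_le_N (hN : IsNorm N) (φ : Lp N) (n : ℕ) (g h : G) :
    |φ.1 (n, g) - φ.1 (n, h)| ≤ N (g⁻¹ * h) := by
  have h1 := φ.2.2 n g h
  have h2 := φ.2.2 n h g
  rw [Baf.nsymm hN] at h2
  rw [abs_le]
  constructor <;> linarith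

instance (N : G → ℝ) : CompactSpace (Lp N) := by
  refine (isCompact_iff_compactSpace (s := {φ : ℕ × G → ℝ | (∀ p, φ p ∈ Icc (0 : ℝ) 1) ∧
    ∀ n g h, φ (n, g) ≤ φ (n, h) + N (g⁻¹ * h)})).1 ?_
  refine (isCompact_pi_infinite fun _ : ℕ × G => isCompact_Icc (a := (0 : ℝ)) (b := 1)).inter_right
    (t := {φ | ∀ n g h, φ (n, g) ≤ φ (n, h) + N (g⁻¹ * h)}) ?_
  simp only [ofPred_forall]
  exact isClosed_iInter fun n => isClosed_iInter fun g => isClosed_iInter fun h =>
    isClosed_le (continuous_apply _) ((continuous_apply _).add continuous_const)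

theorem cont_smul [IsTopologicalGroup G] (hN : IsNorm N) : ContinuousSMul G (Lp N) := by
  refine ⟨continuous_induced_rng.2 (continuous_pi fun p => continuous_iff_continuousAt.2 fun z => ?_)⟩
  change Tendsto (fun w : G × Lp N => w.2.1 (p.1, w.1⁻¹ * p.2)) (𝓝 z) (𝓝 (z.2.1 (p.1, z.1⁻¹ * p.2)))
  have h1 : Tendsto (fun w : G × Lp N => w.2.1 (p.1, z.1⁻¹ * p.2)) (𝓝 z)
      (𝓝 (z.2.1 (p.1, z.1⁻¹ * p.2))) := ((cont_ev N _).comp continuous_snd).continuousAt
  have h2 := tendsto_N' hN (l := 𝓝 z) (a := fun w : G × Lp N => w.1⁻¹ * p.2)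
    (continuous_fst.inv.mul continuous_const).continuousAt tendsto_const_nhds
  have h3 : Tendsto (fun w : G × Lp N => w.2.1 (p.1, w.1⁻¹ * p.2) - w.2.1 (p.1, z.1⁻¹ * p.2)) (𝓝 z)
      (𝓝 0) := squeeze_zero_norm (fun w => abs_le_N hN _ _ _ _) h2
  simpa using h3.add h1

theorem emb [IsTopologicalGroup G] (hN : IsNorm N) {u : ℕ → G} (hu : DenseRange u) :
    IsClosedEmbedding fun (φ : Lp N) (p : ℕ × ℕ) => φ.1 (p.1, u p.2) := by
  refine Continuous.isClosedEmbedding (continuous_pi fun p => cont_ev N _) fun φ ψ e => ?_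
  have hc : ∀ (φ : Lp N) n, Continuous fun g => φ.1 (n, g) := fun φ n =>
    continuous_iff_continuousAt.2 fun g => by
      have h2 := tendsto_N' hN (tendsto_id (x := 𝓝 g)) (tendsto_const_nhds (x := g))
      exact tendsto_sub_nhds_zero_iff.1 (squeeze_zero_norm (fun w => abs_le_N hN _ _ _ _) h2)
  refine Subtype.ext (funext fun p => ?_)
  exact congrFun (hu.equalizer (hc φ p.1) (hc ψ p.1) (funext fun k => congrFun e (p.1, k))) p.2

/-- The point coding a sequence of sets. -/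
noncomputable def jm (hN : IsNorm N) (A : ℕ → Set G) : Lp N :=
  ⟨fun p => rho N (A p.1) p.2, fun p => rho_mem hN (A p.1) p.2, fun n g h => rho_lip hN (A n) g h⟩

end lip

theorem bk {G : Type} [TopologicalSpace G] [Group G] [IsTopologicalGroup G] [PolishSpace G]
    [MeasurableSpace G] [BorelSpace G] {X : Type} [MeasurableSpace X] [StandardBorelSpace X]
    [MulAction G X] (hm : Measurable fun p : G × X => p.1 • p.2) {N : G → ℝ} (hN : IsNorm N) :
    ∃ j : X → Lp N, (∀ p, Measurable fun x => (j x).1 p) ∧ (∀ (g : G) x, j (g • x) = g • j x) ∧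
      ∀ x y, j x = j y → x = y := by
  obtain ⟨B, hB, hs⟩ := exists_seq_separating X MeasurableSet.univ (t := univ)
  have hm' : Measurable fun p : G × X => p.1⁻¹ • p.2 :=
    hm.comp (f := fun p : G × X => (p.1⁻¹, p.2)) (measurable_fst.inv.prodMk measurable_snd)
  obtain ⟨S, hS, hS'⟩ : ∃ S : ℕ → Set (G × X), (∀ n, MeasurableSet (S n)) ∧
      ∀ n u x, (u, x) ∈ S n ↔ u⁻¹ • x ∈ B n :=
    ⟨fun n => (fun p : G × X => p.1⁻¹ • p.2) ⁻¹' B n, fun n => hm' (hB n), fun _ _ _ => Iff.rfl⟩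
  have hA : ∀ n x, MeasurableSet {u | (u, x) ∈ S n} := fun n x => measurable_prodMk_right (hS n)
  refine ⟨fun x => jm hN fun n => {u | (u, x) ∈ S n}, fun p => ?_,
    fun g x => Subtype.ext (funext fun p => ?_), fun x y e => ?_⟩
  · change Measurable fun x => rho N {u | (u, x) ∈ S p.1} p.2
    refine measurable_of_Iio fun s => ?_
    have : (fun x => rho N {u | (u, x) ∈ S p.1} p.2) ⁻¹' Iio s =
        {_x | 1 < s} ∪ {x | IsMeagre (bl N p.2 s ∩ {u | (u, x) ∈ S p.1})}ᶜ := by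
      ext x
      exact rho_lt hN _ _ _
    rw [this]
    exact (MeasurableSet.const _).union (meas_meagre _ (hS p.1) _ (open_bl hN _ _)).compl
  · change rho N {u | (u, g • x) ∈ S p.1} p.2 = rho N {u | (u, x) ∈ S p.1} (g⁻¹ * p.2)
    rw [← rho_mul]
    congr 1
    ext v
    simp [hS', mul_smul]
  · have e' : ∀ n, rho N {u | (u, x) ∈ S n} = rho N {u | (u, y) ∈ S n} := fun n =>
      funext fun h => congrArg (fun φ : Lp N => φ.1 (n, h)) e
    have h4 := isMeagre_iUnion fun n => (rho_inj hN (hA n x) (hA n y) (e' n)).union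
      (rho_inj hN (hA n y) (hA n x) (e' n).symm)
    obtain ⟨v, hv⟩ := (dense_of_mem_residual h4).nonempty
    refine MulAction.injective v⁻¹ (hs _ trivial _ trivial fun n => ?_)
    by_contra hc
    refine hv (mem_iUnion.2 ⟨n, ?_⟩)
    simp only [hS', mem_union, Set.mem_sdiff, mem_ofPred_eq]
    tauto

theorem main_borel
    (G : Type) [TopologicalSpace G] [Group G] [IsTopologicalGroup G] [PolishSpace G]
    [MeasurableSpace G] [BorelSpace G] (X : Type) [MeasurableSpace X] [StandardBorelSpace X]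
    [MulAction G X] (hm : Measurable fun p : G × X => p.1 • p.2) :
    OutZ X fun x y => ∃ g : G, g • x = y := by
  obtain ⟨N, hN⟩ := norm_ok G
  obtain ⟨u, hu⟩ := TopologicalSpace.exists_dense_seq G
  have he := emb hN hu
  have := he.polishSpace
  have := cont_smul hN
  borelize (Lp N)
  obtain ⟨f, h1, h2, h3⟩ := main_cont G (Lp N)
  obtain ⟨j, hj0, hg, hi⟩ := bk hm hN
  have hj : Measurable j := he.measurableEmbedding.measurable_comp_iff.1
    (measurable_pi_lambda _ fun p => hj0 _)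
  refine ⟨fun x => f (j x), fun x => h1 _, fun A B hA hB => (h2 A B hA hB).comp hj,
    fun x y => Iff.trans ⟨?_, ?_⟩ (h3 (j x) (j y))⟩
  · rintro ⟨g, rfl⟩
    exact ⟨g, (hg g x).symm⟩
  · rintro ⟨g, e⟩
    exact ⟨g, hi _ _ ((hg g x).trans e)⟩

end Pool.Agent.P.MP_c1aa6a_an.ZE
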