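import Mathlib

/-! Coding bounds for the entropy of a finite partition. -/

set_option autoImplicit false
open MeasureTheory Set Filter Topology

namespace Pool.Agent.P.MP_c1aa6a_an.ZE

/-- Every finite measurable partition has entropy rate zero. -/
def Zent {Y : Type} [MeasurableSpace Y] (μ : Measure Y) (f : Y → Y) : Prop :=
  ∀ (k : ℕ) (π : Y → Fin k), Measurable π →
    Tendsto (fun n : ℕ => (∑ w : Fin n → Fin k,
      Real.negMulLog (μ.real {t | ∀ i : Fin n, π (f^[i] t) = w i})) / n) atTop (𝓝 0)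

theorem gibbs {Z γ : Type} [Fintype Z] [Fintype γ] [DecidableEq γ] (q R : Z → ℝ)
    (hq : ∀ z, 0 ≤ q z) (hR : ∀ z, 0 < R z) (h1 : ∑ z, R z ≤ ∑ z, q z) (Φ : Z → γ) :
    ∑ w, Real.negMulLog (∑ z ∈ Finset.univ.filter (fun z => Φ z = w), q z) ≤
      ∑ z, q z * -Real.log (R z) := by
  have key : ∀ F : Finset Z, Real.negMulLog (∑ z ∈ F, q z) ≤
      ∑ z ∈ F, q z * -Real.log (R z) + (∑ z ∈ F, R z - ∑ z ∈ F, q z) := by
    intro F
    have hρ : 0 ≤ ∑ z ∈ F, R z := Finset.sum_nonneg fun z _ => (hR z).le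
    rcases (Finset.sum_nonneg fun z (_ : z ∈ F) => hq z).eq_or_lt with hp | hp
    · have h0 := (Finset.sum_eq_zero_iff_of_nonneg fun z (_ : z ∈ F) => hq z).1 hp.symm
      rw [← hp, Real.negMulLog_zero, Finset.sum_eq_zero fun z hz => by rw [h0 z hz, zero_mul]]
      linarith
    · have hne : F.Nonempty := by
        rw [Finset.nonempty_iff_ne_empty]
        rintro rfl
        simp at hp
      have hρ' : 0 < ∑ z ∈ F, R z := Finset.sum_pos (fun z _ => hR z) hne
      have h2 : ∑ z ∈ F, q z * -Real.log (∑ z ∈ F, R z) ≤ ∑ z ∈ F, q z * -Real.log (R z) :=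
        Finset.sum_le_sum fun z hz => mul_le_mul_of_nonneg_left (neg_le_neg (Real.log_le_log (hR z)
          (Finset.single_le_sum (fun z _ => (hR z).le) hz))) (hq z)
      rw [← Finset.sum_mul] at h2
      have h3 := Real.log_le_sub_one_of_pos (div_pos hρ' hp)
      rw [Real.log_div hρ'.ne' hp.ne'] at h3
      have h4 := mul_le_mul_of_nonneg_left h3 hp.le
      rw [mul_sub, mul_sub, mul_div_cancel₀ _ hp.ne'] at h4
      rw [Real.negMulLog]
      linarith
  refine (Finset.sum_le_sum fun w _ => key _).trans ?_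
  rw [Finset.sum_add_distrib, Finset.sum_sub_distrib, Finset.sum_fiberwise, Finset.sum_fiberwise,
    Finset.sum_fiberwise]
  linarith

theorem code_bound {Ω ι α γ : Type} [MeasurableSpace Ω] (P : Measure Ω) [IsProbabilityMeasure P]
    [Fintype ι] [Fintype α] [Fintype γ] [MeasurableSpace α] [DiscreteMeasurableSpace α]
    (V : ι → Ω → α) (hV : ∀ i, Measurable (V i)) (r : α → ℝ) (hr : ∀ a, 0 < r a)
    (hr1 : ∑ a, r a ≤ 1) (Φ : (ι → α) → γ) (A : γ → Set Ω)
    (hA : ∀ w, A w =ᵐ[P] {ω | Φ (fun i => V i ω) = w}) :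
    ∑ w, Real.negMulLog (P.real (A w)) ≤ ∑ i, ∫ ω, -Real.log (r (V i ω)) ∂P := by
  classical
  have hm : Measurable fun ω i => V i ω := measurable_pi_lambda _ hV
  set ν := P.map fun ω i => V i ω with hν
  have : IsProbabilityMeasure ν := Measure.isProbabilityMeasure_map hm.aemeasurable
  have h1 : ∀ w, P.real (A w) = ∑ z ∈ Finset.univ.filter (fun z => Φ z = w), ν.real {z} := by
    intro w
    rw [measureReal_congr (hA w), sum_measureReal_singleton, hν,
      map_measureReal_apply hm (Finset.measurableSet _)]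
    congr 1
    ext ω
    simp
  simp only [h1]
  refine (gibbs (fun z => ν.real {z}) (fun z => ∏ i, r (z i)) (fun _ => measureReal_nonneg)
    (fun z => Finset.prod_pos fun i _ => hr _) ?_ Φ).trans (le_of_eq ?_)
  · rw [sum_measureReal_singleton, Finset.coe_univ, probReal_univ, ← Fintype.piFinset_univ,
      ← Finset.prod_univ_sum (fun _ => Finset.univ) fun _ a => r a]
    exact Finset.prod_le_one (fun _ _ => Finset.sum_nonneg fun a _ => (hr a).le) fun _ _ => hr1
  · have h2 : ∀ i, ∫ ω, -Real.log (r (V i ω)) ∂P = ∑ z, ν.real {z} * -Real.log (r (z i)) := by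
      intro i
      rw [← integral_map hm.aemeasurable (f := fun z : ι → α => -Real.log (r (z i)))
        (measurable_of_finite _).aestronglyMeasurable, ← hν, integral_fintype Integrable.of_finite]
      rfl
    simp only [h2]
    rw [Finset.sum_comm]
    refine Finset.sum_congr rfl fun z _ => ?_
    rw [Real.log_prod fun i _ => (hr _).ne', ← Finset.mul_sum, Finset.sum_neg_distrib]

/-- Weights for a rare symbol. -/
noncomputable def ro (β : Type) [Fintype β] (η : ℝ) : Option β → ℝ
  | none => 1 - η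
  | some _ => η / (Fintype.card β + 1)

theorem ro_pos {β : Type} [Fintype β] {η : ℝ} (h0 : 0 < η) (h1 : η < 1) (a : Option β) :
    0 < ro β η a := by
  cases a
  · simp only [ro]; linarith
  · simp only [ro]; positivity

theorem ro_sum {β : Type} [Fintype β] {η : ℝ} (h0 : 0 < η) : ∑ a, ro β η a ≤ 1 := by
  rw [Fintype.sum_option]
  simp only [ro, Finset.sum_const, Finset.card_univ, nsmul_eq_mul]
  have : (Fintype.card β : ℝ) * (η / (Fintype.card β + 1)) ≤ η := by
    rw [← mul_div_assoc, div_le_iff₀ (by positivity)]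
    nlinarith
  linarith

theorem opt_cost {Ω β : Type} [MeasurableSpace Ω] (P : Measure Ω) [IsProbabilityMeasure P]
    [Fintype β] {η : ℝ} (h0 : 0 < η) (h1 : η < 1) (U : Ω → Option β)
    (hU : ∀ a, MeasurableSet (U ⁻¹' {a})) :
    Integrable (fun ω => -Real.log (ro β η (U ω))) P ∧
    ∫ ω, -Real.log (ro β η (U ω)) ∂P ≤ -Real.log (1 - η) +
      P.real {ω | U ω ≠ none} * (Real.log (Fintype.card β + 1) - Real.log η) := by
  let _ : MeasurableSpace (Option β) := ⊤
  have hm : Measurable U := measurable_to_countable' hU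
  have hi : Integrable (fun ω => -Real.log (ro β η (U ω))) P := by
    have : IsProbabilityMeasure (P.map U) := Measure.isProbabilityMeasure_map hm.aemeasurable
    exact (Integrable.of_finite (μ := P.map U)
      (f := fun a => -Real.log (ro β η a))).comp_measurable hm
  have hs : MeasurableSet {ω | U ω ≠ none} := (hU none).compl
  refine ⟨hi, ?_⟩
  have h2 : 0 ≤ -Real.log (1 - η) := neg_nonneg.2 (Real.log_nonpos (by linarith) (by linarith))
  refine (integral_mono hi ((integrable_const (-Real.log (1 - η))).add ((integrable_const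
    (Real.log (Fintype.card β + 1) - Real.log η)).indicator hs)) fun ω => ?_).trans (le_of_eq ?_)
  · simp only [Pi.add_apply]
    cases h : U ω with
    | none =>
      rw [indicator_of_notMem (by simp [h])]
      simp [ro]
    | some b =>
      rw [indicator_of_mem (by simp [h])]
      simp only [ro]
      rw [Real.log_div h0.ne' (by positivity)]
      linarith
  · simp only [Pi.add_apply]
    rw [integral_add (integrable_const _) ((integrable_const _).indicator hs), integral_const,
      integral_indicator_const _ hs]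
    simp

theorem ze_of_code {Ω : Type} [MeasurableSpace Ω] (P : Measure Ω) [IsProbabilityMeasure P]
    (S : ℤ → Ω → Ω) (hS : ∀ t, MeasurePreserving (S t) P P)
    (hadd : ∀ t u, S (t + u) =ᵐ[P] fun y => S t (S u y)) (hit : ∀ n : ℕ, (S 1)^[n] =ᵐ[P] S n)
    (h : ∀ (k : ℕ) (π : Ω → Fin k), Measurable π → ∀ ε : ℝ, 0 < ε →
      ∃ (β : Type) (_ : Fintype β) (Z : Ω → Option β) (R : ℕ) (Φ : (ℤ → Option β) → Fin k),
        (∀ a, MeasurableSet (Z ⁻¹' {a})) ∧
        (∀ z z' : ℤ → Option β, (∀ t : ℤ, |t| ≤ R → z t = z' t) → Φ z = Φ z') ∧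
        P.real {ω | Z ω ≠ none} * (1 + Real.log (Fintype.card β + 1)) ≤ ε ∧
        P.real {ω | π ω ≠ Φ fun t => Z (S t ω)} ≤ ε) : Zent P (S 1) := by
  classical
  intro k π hπ
  rw [Metric.tendsto_atTop]
  intro γ hγ
  obtain ⟨η, h0, h1, hη⟩ : ∃ η : ℝ, 0 < η ∧ η < 1 ∧ -Real.log (1 - η) ≤ γ / 16 := by
    refine ⟨1 - Real.exp (-(γ / 16)), ?_, ?_, ?_⟩
    · have : Real.exp (-(γ / 16)) < 1 := Real.exp_lt_one_iff.2 (by linarith)
      linarith
    · have := Real.exp_pos (-(γ / 16))
      linarith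
    · simp
  have hl : 0 ≤ -Real.log η := neg_nonneg.2 (Real.log_nonpos h0.le h1.le)
  have hk : 0 ≤ Real.log ((k : ℝ) + 1) := Real.log_nonneg (by linarith [Nat.cast_nonneg (α := ℝ) k])
  set c := 1 + Real.log ((k : ℝ) + 1) - Real.log η with hc
  have hc1 : 1 ≤ c := by linarith
  obtain ⟨β, _, Z, R, Φ, hZ, hΦ, e1, e2⟩ := h k π hπ (γ / 16 / c) (by positivity)
  let _ : MeasurableSpace (Option β) := ⊤
  let _ : MeasurableSpace (Option (Fin k)) := ⊤
  have hZm : Measurable Z := measurable_to_countable' hZ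
  have hΦm : Measurable fun ω => Φ fun t => Z (S t ω) := by
    have : (fun ω => Φ fun t => Z (S t ω)) = (fun y : Finset.Icc (-(R : ℤ)) R → Option β =>
        Φ fun t => if ht : t ∈ Finset.Icc (-(R : ℤ)) R then y ⟨t, ht⟩ else none) ∘
        fun ω t => Z (S t ω) := by
      funext ω
      refine hΦ _ _ fun t ht => ?_
      rw [dif_pos (Finset.mem_Icc.2 (abs_le.1 ht))]
    rw [this]
    exact (measurable_of_finite _).comp
      (measurable_pi_lambda _ fun t => hZm.comp (hS _).measurable)
  let E : Ω → Option (Fin k) := fun ω =>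
    if π ω = Φ fun t => Z (S t ω) then none else some (π ω)
  have hEm : Measurable E :=
    Measurable.ite (measurableSet_eq_fun hπ hΦm) measurable_const
      ((measurable_of_finite _).comp hπ)
  have hE : ∀ ω, (E ω).getD (Φ fun t => Z (S t ω)) = π ω := by
    intro ω
    simp only [E]
    split_ifs with h
    · exact h.symm
    · rfl
  obtain ⟨i1, c1⟩ := opt_cost P h0 h1 Z hZ
  obtain ⟨i2, c2⟩ := opt_cost P h0 h1 E fun a => hEm (measurableSet_singleton a)
  have hβ : 0 ≤ Real.log ((Fintype.card β : ℝ) + 1) :=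
    Real.log_nonneg (by linarith [Nat.cast_nonneg (α := ℝ) (Fintype.card β)])
  have d1 : P.real {ω | Z ω ≠ none} * (Real.log (Fintype.card β + 1) - Real.log η) ≤ γ / 16 := by
    calc _ ≤ P.real {ω | Z ω ≠ none} * ((1 + Real.log (Fintype.card β + 1)) * c) :=
          mul_le_mul_of_nonneg_left (by nlinarith) measureReal_nonneg
      _ ≤ γ / 16 / c * c := by
          rw [← mul_assoc]
          exact mul_le_mul_of_nonneg_right e1 (by linarith)
      _ = _ := div_mul_cancel₀ _ (by linarith)
  have d2 : P.real {ω | E ω ≠ none} * (Real.log (Fintype.card (Fin k) + 1) - Real.log η) ≤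
      γ / 16 := by
    have : {ω | E ω ≠ none} = {ω | π ω ≠ Φ fun t => Z (S t ω)} := by
      ext ω
      simp [E]
    rw [this, Fintype.card_fin]
    calc _ ≤ γ / 16 / c * c := mul_le_mul e2 (by linarith) (by linarith) (by positivity)
      _ = _ := div_mul_cancel₀ _ (by linarith)
  have hcost : ∀ u, ∫ ω, -Real.log (ro β η (Z (S u ω)) * ro (Fin k) η (E (S u ω))) ∂P ≤ γ / 4 := by
    intro u
    have hg : Measurable fun ω => -Real.log (ro β η (Z ω) * ro (Fin k) η (E ω)) :=
      (measurable_of_finite fun a : Option β × Option (Fin k) =>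
        -Real.log (ro β η a.1 * ro (Fin k) η a.2)).comp (hZm.prodMk hEm)
    rw [← integral_map (hS u).measurable.aemeasurable hg.aestronglyMeasurable, (hS u).map_eq]
    simp only [fun a b => Real.log_mul (ro_pos (β := β) h0 h1 a).ne'
      (ro_pos (β := Fin k) h0 h1 b).ne', neg_add]
    rw [integral_add i1 i2]
    linarith
  refine ⟨2 * R + 1, fun n hn => ?_⟩
  have hnpos : (0 : ℝ) < n := by exact_mod_cast (by omega : 0 < n)
  let ex : (Finset.Icc (-(R : ℤ)) (n + R) → Option β × Option (Fin k)) → ℤ →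
      Option β × Option (Fin k) := fun v u =>
    if hu : u ∈ Finset.Icc (-(R : ℤ)) (n + R) then v ⟨u, hu⟩ else (none, none)
  have hb := code_bound P (ι := Finset.Icc (-(R : ℤ)) (n + R))
    (fun u ω => (Z (S u ω), E (S u ω)))
    (fun u => (hZm.comp (hS u).measurable).prodMk (hEm.comp (hS u).measurable))
    (fun a => ro β η a.1 * ro (Fin k) η a.2)
    (fun a => mul_pos (ro_pos h0 h1 _) (ro_pos h0 h1 _)) (by
      rw [Fintype.sum_prod_type, ← Finset.sum_mul_sum]
      exact mul_le_one₀ (ro_sum h0) (Finset.sum_nonneg fun a _ => (ro_pos h0 h1 a).le) (ro_sum h0))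
    (fun v (i : Fin n) => (ex v i).2.getD (Φ fun t => (ex v (t + i)).1))
    (fun w => {t | ∀ i : Fin n, π ((S 1)^[i] t) = w i}) (by
      intro w
      filter_upwards [ae_all_iff.2 hit, ae_all_iff.2 fun t => ae_all_iff.2 (hadd t)] with ω a1 a2
      refine propext ?_
      change (∀ i : Fin n, π ((S 1)^[i] ω) = w i) ↔ _ = w
      rw [funext_iff]
      refine forall_congr' fun i => ?_
      have hi : ((i : ℕ) : ℤ) < n := by exact_mod_cast i.2
      have b1 : ((i : ℕ) : ℤ) ∈ Finset.Icc (-(R : ℤ)) (n + R) := Finset.mem_Icc.2 ⟨by omega, by omega⟩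
      have b2 : (Φ fun t => (ex (fun u => (Z (S u ω), E (S u ω))) (t + (i : ℕ))).1) =
          Φ fun t => Z (S t (S (i : ℕ) ω)) := by
        refine hΦ _ _ fun t ht => ?_
        rw [abs_le] at ht
        simp only [ex]
        rw [dif_pos (Finset.mem_Icc.2 ⟨by omega, by omega⟩), a2]
      rw [b2]
      simp only [ex, dif_pos b1]
      rw [hE, a1])
  have hb2 := hb.trans (Finset.sum_le_card_nsmul _ _ _ fun u _ => hcost u)
  rw [Finset.card_univ, Fintype.card_coe, Int.card_Icc, nsmul_eq_mul] at hb2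
  have hcard : (((n : ℤ) + R + 1 - -(R : ℤ)).toNat : ℝ) ≤ 2 * n := by
    exact_mod_cast (by omega : ((n : ℤ) + R + 1 - -(R : ℤ)).toNat ≤ 2 * n)
  have hnn : 0 ≤ ∑ w : Fin n → Fin k,
      Real.negMulLog (P.real {t | ∀ i : Fin n, π ((S 1)^[i] t) = w i}) :=
    Finset.sum_nonneg fun w _ => Real.negMulLog_nonneg measureReal_nonneg measureReal_le_one
  rw [Real.dist_eq, sub_zero, abs_of_nonneg (by positivity), div_lt_iff₀ hnpos]
  nlinarith

end Pool.Agent.P.MP_c1aa6a_an.ZE
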