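import Pool.Agent.P.MP_c1aa6a_an.Mix.Main
import Pool.Agent.P.MP_c1aa6a_an.ZE.Ent

/-! Poisson suspensions over towers with thin bases have entropy zero. -/

set_option autoImplicit false
open MeasureTheory Set Filter Topology
open scoped ENNReal NNReal symmDiff

namespace Pool.Agent.P.MP_c1aa6a_an.ZE

open Mix

/-- Finite families of sets are nearly unions of translates of few cells of a thin base. -/
def TW {Y : Type} [MeasurableSpace Y] (m : Measure Y) (s : ℤ → Y → Y) : Prop :=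
  ∀ (ι : Type) [Fintype ι] (A : ι → Set Y), (∀ i, MeasurableSet (A i) ∧ m (A i) ≠ ∞) →
    ∀ ε : ℝ, 0 < ε → ∃ (β : Type) (_ : Fintype β) (C : β → Set Y) (Λ : Finset ℤ)
      (ψ : ι → ℤ → Finset β), (∀ b, MeasurableSet (C b)) ∧ m (⋃ b, C b) ≠ ∞ ∧
      (∀ b b' y, y ∈ C b → y ∈ C b' → b = b') ∧
      (∀ t ∈ Λ, ∀ t' ∈ Λ, ∀ y, s t y ∈ ⋃ b, C b → s t' y ∈ ⋃ b, C b → t = t') ∧
      m.real (⋃ b, C b) * (1 + Real.log (Fintype.card β + 1)) ≤ ε ∧
      Λ.card * m.real (⋃ b, C b) ^ 2 ≤ ε ∧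
      ∀ i, m.real (A i ∆ ⋃ t ∈ Λ, s t ⁻¹' ⋃ b ∈ ψ i t, C b) ≤ ε

theorem cyl_approx (P : Measure Cf) [IsFiniteMeasure P] {k : ℕ} (π : Cf → Fin k)
    (hπ : Measurable π) {ε : ℝ} (hε : 0 < ε) : ∃ (T : Finset CO) (π' : Cf → Fin k),
      (∀ ν ν', (∀ E ∈ T, ν E = ν' E) → π' ν = π' ν') ∧ P.real {ν | π ν ≠ π' ν} ≤ ε := by
  classical
  let R : Set (Set Cf) := {V | MeasurableSet V ∧
    ∃ T : Finset CO, ∀ ν ν' : Cf, (∀ E ∈ T, ν E = ν' E) → (ν ∈ V ↔ ν' ∈ V)}
  have hR : IsSetRing R :=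
    { empty_mem := ⟨MeasurableSet.empty, ∅, fun _ _ _ => Iff.rfl⟩
      union_mem := by
        rintro s t ⟨s1, T, s2⟩ ⟨t1, T', t2⟩
        exact ⟨s1.union t1, T ∪ T', fun ν ν' h =>
          or_congr (s2 ν ν' fun E hE => h E (Finset.mem_union_left _ hE))
            (t2 ν ν' fun E hE => h E (Finset.mem_union_right _ hE))⟩
      sdiff_mem := by
        rintro s t ⟨s1, T, s2⟩ ⟨t1, T', t2⟩
        exact ⟨s1.diff t1, T ∪ T', fun ν ν' h =>
          and_congr (s2 ν ν' fun E hE => h E (Finset.mem_union_left _ hE))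
            (t2 ν ν' fun E hE => h E (Finset.mem_union_right _ hE)).not⟩ }
  have hgen : (inferInstance : MeasurableSpace Cf) = MeasurableSpace.generateFrom R := by
    refine le_antisymm ?_ (MeasurableSpace.generateFrom_le fun _ h => h.1)
    have h2 : ∀ E, Measurable[MeasurableSpace.generateFrom R] fun ν : Cf => ν E :=
      fun E s hs => MeasurableSpace.measurableSet_generateFrom
        ⟨measurable_pi_apply E hs, {E}, fun ν ν' h => by
          simp only [mem_preimage, h E (Finset.mem_singleton_self E)]⟩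
    exact fun s hs => @measurable_pi_lambda _ _ _ (MeasurableSpace.generateFrom R) _ _ h2 s hs
  have hk : (0 : ℝ) < k + 1 := by positivity
  choose V hV1 hV2 using fun a : Fin k => exists_measure_symmDiff_lt_of_generateFrom_isSetRing
    (μ := P) hR ⟨{univ}, countable_singleton _, singleton_subset_iff.2
      ⟨MeasurableSet.univ, ∅, fun _ _ _ => Iff.rfl⟩, by simp⟩ hgen
    (hπ (measurableSet_singleton a)) (ENNReal.ofReal_pos.2 (div_pos hε hk))
  choose T hT using fun a => (hV1 a).2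
  let g : (Fin k → Prop) → Fin k := fun p => if h : ∃ a, p a then h.choose else π fun _ => 0
  refine ⟨Finset.univ.biUnion T, fun ν => g fun a => ν ∈ V a, fun ν ν' h => ?_, ?_⟩
  · exact congrArg g (funext fun a => propext (hT a ν ν' fun E hE =>
      h E (Finset.mem_biUnion.2 ⟨a, Finset.mem_univ _, hE⟩)))
  · refine (measureReal_mono (s₂ := ⋃ a, V a ∆ (π ⁻¹' {a})) fun ν hν => ?_).trans
      ((measureReal_iUnion_fintype_le _).trans ?_)
    · by_contra hc
      have h1 : ∀ a, ν ∈ V a ↔ π ν = a := fun a => by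
        have : ν ∉ V a ∆ (π ⁻¹' {a}) := fun h => hc (mem_iUnion.2 ⟨a, h⟩)
        simp only [mem_symmDiff, mem_preimage, mem_singleton_iff] at this
        tauto
      have h2 : ∃ a, ν ∈ V a := ⟨_, (h1 _).2 rfl⟩
      refine hν ?_
      simp only [g, dif_pos h2]
      exact (h1 _).1 h2.choose_spec
    · refine (Finset.sum_le_card_nsmul _ _ (ε / (k + 1)) fun a _ =>
        ENNReal.toReal_le_of_le_ofReal (div_pos hε hk).le (hV2 a).le).trans ?_
      rw [Finset.card_univ, Fintype.card_fin, nsmul_eq_mul, ← mul_div_assoc, div_le_iff₀ hk]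
      nlinarith

variable {ξ : Measure Xi} [IsProbabilityMeasure ξ] {P : Measure Cf} [IsProbabilityMeasure P]
  {I : L2 (mQ ξ) →ₗᵢ[ℝ] L2 P}

/-- Numbers of points in sets of finite measure. -/
structure Cnt (I : L2 (mQ ξ) →ₗᵢ[ℝ] L2 P) (N : Set Q → Cf → ℕ) : Prop where
  meas : ∀ A, MeasurableSet A → mQ ξ A ≠ ∞ → Measurable (N A)
  eq : ∀ A (hA : MeasurableSet A) (hm : mQ ξ A ≠ ∞),
    I (indicatorConstLp 2 hA hm (1 : ℝ)) =ᵐ[P] fun ν => (N A ν : ℝ) - (mQ ξ).real A

theorem exists_cnt (hI : IsChaos ξ P I) : ∃ N, Cnt I N := by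
  obtain ⟨h1, h2, -⟩ := approx_ok ξ
  have : ∀ A, ∃ N : Cf → ℕ, ∀ (hA : MeasurableSet A) (hm : mQ ξ A ≠ ∞), Measurable N ∧
      I (indicatorConstLp 2 hA hm (1 : ℝ)) =ᵐ[P] fun ν => (N ν : ℝ) - (mQ ξ).real A := by
    intro A
    by_cases h : MeasurableSet A ∧ mQ ξ A ≠ ∞
    · obtain ⟨N, -, a1, -, -, a2⟩ := Lift.natLim hI h1 h2 h.1 h.2
      exact ⟨N, fun _ _ => ⟨a1, a2⟩⟩
    · exact ⟨fun _ => 0, fun hA hm => absurd ⟨hA, hm⟩ h⟩
  choose N hN using this
  exact ⟨N, fun A hA hm => (hN A hA hm).1, fun A hA hm => (hN A hA hm).2⟩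

variable {N : Set Q → Cf → ℕ}

theorem Cnt.co (h : Cnt I N) (hI : IsChaos ξ P I) (E : CO) : ∀ᵐ ν ∂P, N E.1 ν = ν E := by
  obtain ⟨h1, h2⟩ := (approx_ok ξ).1 E
  filter_upwards [h.eq _ h1 h2, hI.ind E (indicatorConstLp 2 h1 h2 (1 : ℝ))
    indicatorConstLp_coeFn] with ν a b
  rw [a] at b
  exact_mod_cast sub_left_injective b

theorem Cnt.add (h : Cnt I N) {A B : Set Q} (hA : MeasurableSet A) (hA' : mQ ξ A ≠ ∞)
    (hB : MeasurableSet B) (hB' : mQ ξ B ≠ ∞) (hd : Disjoint A B) :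
    ∀ᵐ ν ∂P, N (A ∪ B) ν = N A ν + N B ν := by
  have h1 := h.eq _ (hA.union hB) (measure_union_ne_top hA' hB')
  rw [indicatorConstLp_disjoint_union hA hB hA' hB' hd, map_add, measureReal_union hd hB hA' hB']
    at h1
  filter_upwards [h1, h.eq _ hA hA', h.eq _ hB hB', Lp.coeFn_add
    (I (indicatorConstLp 2 hA hA' (1 : ℝ))) (I (indicatorConstLp 2 hB hB' (1 : ℝ)))] with ν a b c d
  rw [d, Pi.add_apply, b, c] at a
  have : (N (A ∪ B) ν : ℝ) = N A ν + N B ν := by linarith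
  exact_mod_cast this

theorem Cnt.lift (h : Cnt I N) {S : Cf → Cf} {s : Q → Q} (hS : Lifts I S s) {A : Set Q}
    (hA : MeasurableSet A) (hA' : mQ ξ A ≠ ∞) : ∀ᵐ ν ∂P, N A (S ν) = N (s ⁻¹' A) ν := by
  have h0 := hS.1.measure_preimage hA.nullMeasurableSet
  have h1 := hS.2.2 (indicatorConstLp 2 hA hA' (1 : ℝ))
    (indicatorConstLp 2 (hS.1.measurable hA) (h0.trans_ne hA') (1 : ℝ))
    (indicatorConstLp_coeFn.trans (Step2.aec hS.1 indicatorConstLp_coeFn).symm)
  filter_upwards [h1, Step2.aec hS.2.1 (h.eq _ hA hA'),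
    h.eq _ (hS.1.measurable hA) (h0.trans_ne hA')] with ν a b c
  rw [b, c, measureReal_def, measureReal_def, h0] at a
  exact_mod_cast sub_left_injective a

theorem Cnt.prob (h : Cnt I N) (hI : IsChaos ξ P I) {A : Set Q} (hA : MeasurableSet A)
    (hA' : mQ ξ A ≠ ∞) : P.real {ν | N A ν ≠ 0} ≤ (mQ ξ).real A ∧
      P.real {ν | 2 ≤ N A ν} ≤ (mQ ξ).real A ^ 2 := by
  set F := indicatorConstLp 2 hA hA' (1 : ℝ) with hF
  set a := (mQ ξ).real A with ha
  have h0 : ∫ ν, I F ν ∂P = 0 := by simpa [ex, gR] using hI.form F []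
  have h2 : ∫ ν, I F ν * I F ν ∂P = a := by
    rw [← FCx.inner_eq, I.inner_map_map, hF,
      L2.real_inner_indicatorConstLp_one_indicatorConstLp_one, inter_self]
  have i1 : Integrable (I F) P := (Lp.memLp (I F)).integrable (by norm_num)
  have i2 : Integrable (fun ν => I F ν * I F ν) P := (Lp.memLp (I F)).integrable_mul (Lp.memLp _)
  have e := h.eq _ hA hA'
  constructor
  · have e1 : (fun ν => (N A ν : ℝ)) =ᵐ[P] fun ν => I F ν + a := by
      filter_upwards [e] with ν hν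
      rw [hν]; ring
    have := mul_meas_ge_le_integral_of_nonneg (μ := P) (f := fun ν => (N A ν : ℝ))
      (Eventually.of_forall fun ν => Nat.cast_nonneg _)
      ((i1.add (integrable_const a)).congr e1.symm) 1
    rw [integral_congr_ae e1, integral_add i1 (integrable_const a), h0, integral_const] at this
    simpa [Nat.one_le_iff_ne_zero] using this
  · have e1 : (fun ν => (N A ν : ℝ) * (N A ν - 1)) =ᵐ[P]
        fun ν => I F ν * I F ν + ((2 * a - 1) * I F ν + (a ^ 2 - a)) := by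
      filter_upwards [e] with ν hν
      rw [hν]; ring
    have i3 : Integrable (fun ν => (2 * a - 1) * I F ν + (a ^ 2 - a)) P :=
      (i1.const_mul (2 * a - 1)).add (integrable_const (a ^ 2 - a))
    have := mul_meas_ge_le_integral_of_nonneg (μ := P)
      (f := fun ν => (N A ν : ℝ) * (N A ν - 1)) (Eventually.of_forall fun ν => by
        rcases Nat.eq_zero_or_pos (N A ν) with h | h
        · simp [h]
        · have : (1 : ℝ) ≤ N A ν := by exact_mod_cast h
          exact mul_nonneg (by linarith) (by linarith)) ((i2.add i3).congr e1.symm) 1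
    rw [integral_congr_ae e1, integral_add i2 i3, integral_add (i1.const_mul _)
      (integrable_const _), integral_const_mul, h0, h2, integral_const] at this
    refine (measureReal_mono (s₂ := {x | 1 ≤ (N A x : ℝ) * (N A x - 1)}) fun ν hν => ?_).trans
      (by simpa using this)
    have : (2 : ℝ) ≤ N A ν := by exact_mod_cast hν
    change 1 ≤ (N A ν : ℝ) * (N A ν - 1)
    nlinarith

theorem Cnt.sum (h : Cnt I N) (hI : IsChaos ξ P I) {κ : Type} (T : Finset κ) (A : κ → Set Q)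
    (hA : ∀ i ∈ T, MeasurableSet (A i) ∧ mQ ξ (A i) ≠ ∞)
    (hd : ∀ i ∈ T, ∀ j ∈ T, ∀ q, q ∈ A i → q ∈ A j → i = j) :
    ∀ᵐ ν ∂P, N (⋃ i ∈ T, A i) ν = ∑ i ∈ T, N (A i) ν := by
  classical
  induction T using Finset.induction_on with
  | empty =>
    have := (h.prob hI MeasurableSet.empty (by simp)).1
    rw [measureReal_empty] at this
    have h1 := (measureReal_eq_zero_iff (measure_ne_top P _)).1
      (le_antisymm this measureReal_nonneg)
    simpa [ae_iff] using h1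
  | insert i T hi ih =>
    have h1 : ∀ j ∈ T, MeasurableSet (A j) ∧ mQ ξ (A j) ≠ ∞ := fun j hj =>
      hA j (Finset.mem_insert_of_mem hj)
    filter_upwards [ih h1 fun a ha b hb => hd a (Finset.mem_insert_of_mem ha) b
      (Finset.mem_insert_of_mem hb), h.add (hA i (Finset.mem_insert_self _ _)).1
      (hA i (Finset.mem_insert_self _ _)).2 (T.measurableSet_biUnion fun j hj => (h1 j hj).1)
      (measure_biUnion_ne_top T.finite_toSet fun j hj => (h1 j hj).2) (by
        rw [Set.disjoint_left]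
        intro q hq hq'
        obtain ⟨j, hj, hq''⟩ := mem_iUnion₂.1 hq'
        exact hi (hd i (Finset.mem_insert_self _ _) j (Finset.mem_insert_of_mem hj) q hq hq'' ▸ hj))]
      with ν a b
    rw [Finset.set_biUnion_insert, Finset.sum_insert hi, b, a]

theorem Cnt.near (h : Cnt I N) {A B : Set Q} (hA : MeasurableSet A)
    (hA' : mQ ξ A ≠ ∞) (hB : MeasurableSet B) (hB' : mQ ξ B ≠ ∞) :
    ∀ᵐ ν ∂P, N (A ∆ B) ν = 0 → N A ν = N B ν := by
  have f1 : mQ ξ (A \ B) ≠ ∞ := measure_ne_top_of_subset sdiff_subset hA'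
  have f2 : mQ ξ (B \ A) ≠ ∞ := measure_ne_top_of_subset sdiff_subset hB'
  have f3 : mQ ξ (A ∩ B) ≠ ∞ := measure_ne_top_of_subset inter_subset_left hA'
  have e1 := h.add (hA.diff hB) f1 (hB.diff hA) f2 disjoint_sdiff_sdiff
  have e2 := h.add (hA.inter hB) f3 (hA.diff hB) f1 (disjoint_sdiff_inter.symm)
  have e3 := h.add (hA.inter hB) f3 (hB.diff hA) f2 (by
    rw [inter_comm]; exact disjoint_sdiff_inter.symm)
  rw [inter_union_sdiff] at e2
  rw [inter_comm, inter_union_sdiff, inter_comm] at e3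
  filter_upwards [e1, e2, e3] with ν a b c d
  rw [Set.symmDiff_def, a] at d
  omega

theorem sum_rare {β : Type} [Fintype β] [DecidableEq β] (n : β → ℕ) (h : ∑ b, n b ≤ 1)
    (z : Option β) (hz : ∀ b, z = some b → n b ≠ 0) (hz' : z = none → ∀ b, n b = 0)
    (ψ : Finset β) : ∑ b ∈ ψ, n b = if ∃ b ∈ ψ, z = some b then 1 else 0 := by
  cases z with
  | none => simp [hz' rfl]
  | some c =>
    have h1 := hz c rfl
    have h2 := Finset.add_sum_erase _ n (Finset.mem_univ c)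
    have h3 : ∀ b, b ≠ c → n b = 0 := fun b hb => by
      have := Finset.single_le_sum (f := n) (fun _ _ => Nat.zero_le _)
        (Finset.mem_erase.2 ⟨hb, Finset.mem_univ b⟩)
      omega
    by_cases hc : c ∈ ψ
    · rw [if_pos ⟨c, hc, rfl⟩, Finset.sum_eq_single_of_mem c hc fun b _ hb => h3 b hb]
      omega
    · rw [if_neg, Finset.sum_eq_zero fun b hb => h3 b fun e => hc (e ▸ hb)]
      rintro ⟨b, hb, e⟩
      exact hc (Option.some_injective _ e ▸ hb)

theorem zent_poisson (hI : IsChaos ξ P I) {s : ℤ → Q → Q} {S : ℤ → Cf → Cf} (hs : ZA (mQ ξ) s)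
    (hS : ∀ t, Lifts I (S t) (s t)) (hT : TW (mQ ξ) s) : Zent P (S 1) := by
  classical
  have hZ := za_lift hI hs hS
  obtain ⟨N, hN⟩ := exists_cnt hI
  refine ze_of_code P S hZ.1 hZ.2.2 hZ.iter fun k π hπ ε hε => ?_
  obtain ⟨T, π', hπ', e0⟩ := cyl_approx P π hπ (show 0 < ε / 3 by linarith)
  have hc : (0 : ℝ) < T.card + 1 := by positivity
  have hδ : ε / 3 / (T.card + 1) ≤ ε / 3 :=
    div_le_self (by linarith) (by linarith [Nat.cast_nonneg (α := ℝ) T.card])
  obtain ⟨β, _, C, Λ, ψ, c1, c2, c3, c4, c5, c6, c7⟩ := hT T (fun E => E.1.1)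
    (fun E => (approx_ok ξ).1 E.1) (ε / 3 / (T.card + 1)) (by positivity)
  have hB : MeasurableSet (⋃ b, C b) := MeasurableSet.iUnion c1
  have hC : ∀ b, mQ ξ (C b) ≠ ∞ := fun b => measure_ne_top_of_subset (subset_iUnion C b) c2
  let g : (β → Bool) → Option β := fun p =>
    if h : ∃ b, p b = true then some h.choose else none
  let Z : Cf → Option β := fun ν => g fun b => decide (N (C b) ν ≠ 0)
  have hZ1 : ∀ ν b, Z ν = some b → N (C b) ν ≠ 0 := by
    intro ν b h
    simp only [Z, g] at h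
    split_ifs at h with h1
    rw [← Option.some_injective _ h]
    exact of_decide_eq_true h1.choose_spec
  have hZ2 : ∀ ν, Z ν = none → ∀ b, N (C b) ν = 0 := by
    intro ν h b
    simp only [Z, g] at h
    split_ifs at h with h1
    by_contra hb
    exact h1 ⟨b, decide_eq_true hb⟩
  have hsum : ∀ᵐ ν ∂P, N (⋃ b, C b) ν = ∑ b, N (C b) ν := by
    simpa using hN.sum hI Finset.univ C (fun b _ => ⟨c1 b, hC b⟩) fun b _ b' _ => c3 b b'
  have hU : ∀ E t, MeasurableSet (⋃ b ∈ ψ E t, C b) ∧ mQ ξ (⋃ b ∈ ψ E t, C b) ≠ ∞ := fun E t =>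
    ⟨(ψ E t).measurableSet_biUnion fun b _ => c1 b,
      measure_ne_top_of_subset (iUnion₂_subset fun b _ => subset_iUnion C b) c2⟩
  have hU' : ∀ E t, MeasurableSet (s t ⁻¹' ⋃ b ∈ ψ E t, C b) ∧
      mQ ξ (s t ⁻¹' ⋃ b ∈ ψ E t, C b) ≠ ∞ := fun E t =>
    ⟨(hs.1 t).measurable (hU E t).1,
      ((hs.1 t).measure_preimage (hU E t).1.nullMeasurableSet).trans_ne (hU E t).2⟩
  let A' : T → Set Q := fun E => ⋃ t ∈ Λ, s t ⁻¹' ⋃ b ∈ ψ E t, C b
  have hA' : ∀ E, MeasurableSet (A' E) ∧ mQ ξ (A' E) ≠ ∞ := fun E =>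
    ⟨Λ.measurableSet_biUnion fun t _ => (hU' E t).1,
      measure_biUnion_ne_top Λ.finite_toSet fun t _ => (hU' E t).2⟩
  refine ⟨β, inferInstance, Z, Λ.sup Int.natAbs, fun z => π' fun E =>
    if hE : E ∈ T then ∑ t ∈ Λ, if ∃ b ∈ ψ ⟨E, hE⟩ t, z t = some b then 1 else 0 else 0,
    fun a => ?_, fun z z' h => ?_, ?_, ?_⟩
  · exact (measurable_pi_lambda (fun ν b => decide (N (C b) ν ≠ 0)) fun b =>
      (measurable_of_countable fun n : ℕ => decide (n ≠ 0)).comp (hN.meas _ (c1 b) (hC b)))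
      (toFinite (g ⁻¹' {a})).measurableSet
  · refine hπ' _ _ fun E hE => ?_
    simp only [dif_pos hE]
    refine Finset.sum_congr rfl fun t ht => ?_
    rw [h t (by
      rw [Int.abs_eq_natAbs]
      exact_mod_cast Finset.le_sup (f := Int.natAbs) ht)]
  · refine le_trans (mul_le_mul_of_nonneg_right ?_ ?_) (c5.trans (by linarith))
    · refine le_trans (ENNReal.toReal_mono (measure_ne_top _ _) (measure_mono_ae ?_))
        (hN.prob hI hB c2).1
      filter_upwards [hsum] with ν h1 h2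
      obtain ⟨b, hb⟩ := Option.ne_none_iff_exists'.1 h2
      have := Finset.single_le_sum (f := fun b => N (C b) ν) (fun _ _ => Nat.zero_le _)
        (Finset.mem_univ b)
      have := hZ1 ν b hb
      change N (⋃ b, C b) ν ≠ 0
      omega
    · have := Real.log_nonneg (show (1 : ℝ) ≤ Fintype.card β + 1 by
        linarith [Nat.cast_nonneg (α := ℝ) (Fintype.card β)])
      linarith
  · have hco := (approx_ok ξ).1
    refine le_trans (ENNReal.toReal_mono (measure_ne_top _ _) (measure_mono_ae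
      (t := {ν | π ν ≠ π' ν} ∪ ((⋃ E : T, {ν | N (E.1.1 ∆ A' E) ν ≠ 0}) ∪
        ⋃ t ∈ Λ, S t ⁻¹' {ν | 2 ≤ N (⋃ b, C b) ν})) ?_)) ?_
    · filter_upwards [ae_all_iff.2 (hN.co hI), ae_all_iff.2 fun E : T =>
        hN.near (hco E.1).1 (hco E.1).2 (hA' E).1 (hA' E).2, ae_all_iff.2 fun E : T =>
        hN.sum hI Λ (fun t => s t ⁻¹' ⋃ b ∈ ψ E t, C b) (fun t _ => hU' E t)
          fun t ht t' ht' q h1 h2 => c4 t ht t' ht' q
            (iUnion₂_subset (fun b _ => subset_iUnion C b) h1)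
            (iUnion₂_subset (fun b _ => subset_iUnion C b) h2),
        ae_all_iff.2 fun E : T => ae_all_iff.2 fun t => hN.lift (hS t) (hU E t).1 (hU E t).2,
        ae_all_iff.2 fun E : T => ae_all_iff.2 fun t => (hZ.1 t).quasiMeasurePreserving.ae
          (hN.sum hI (ψ E t) C (fun b _ => ⟨c1 b, hC b⟩) fun b _ b' _ => c3 b b'),
        ae_all_iff.2 fun t => (hZ.1 t).quasiMeasurePreserving.ae hsum] with ν a1 a2 a3 a4 a5 a6 hν
      by_contra hcon
      change ¬ (π ν ≠ π' ν ∨ _ ∨ _) at hcon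
      simp only [not_or, not_not, mem_iUnion, not_exists, mem_ofPred_eq, mem_preimage,
        not_le] at hcon
      obtain ⟨b1, b2, b3⟩ := hcon
      refine hν (b1.trans (hπ' _ _ fun E hE => ?_))
      simp only [dif_pos hE]
      rw [← a1 E, a2 ⟨E, hE⟩ (b2 ⟨E, hE⟩), a3 ⟨E, hE⟩]
      refine Finset.sum_congr rfl fun t ht => ?_
      rw [← a4, a5]
      refine sum_rare (fun b => N (C b) (S t ν)) ?_ _ (hZ1 _) (hZ2 _) _
      have := b3 t ht
      rw [a6] at this
      omega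
    · have u1 : P.real (⋃ E : T, {ν | N (E.1.1 ∆ A' E) ν ≠ 0}) ≤ ε / 3 := by
        refine (measureReal_iUnion_fintype_le _).trans
          ((Finset.sum_le_card_nsmul _ _ (ε / 3 / (T.card + 1)) fun E _ =>
            (hN.prob hI ((hco E.1).1.symmDiff (hA' E).1)
              (measure_symmDiff_ne_top (hco E.1).2 (hA' E).2)).1.trans (c7 E)).trans ?_)
        rw [Finset.card_univ, Fintype.card_coe, nsmul_eq_mul, ← mul_div_assoc, div_le_iff₀ hc]
        nlinarith
      have u2 : P.real (⋃ t ∈ Λ, S t ⁻¹' {ν | 2 ≤ N (⋃ b, C b) ν}) ≤ ε / 3 := by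
        refine (measureReal_biUnion_finset_le _ _).trans
          ((Finset.sum_le_card_nsmul _ _ ((mQ ξ).real (⋃ b, C b) ^ 2) fun t _ => ?_).trans ?_)
        · exact ((hZ.1 t).measureReal_preimage (hN.meas _ hB c2
            (MeasurableSet.of_discrete (s := {n : ℕ | 2 ≤ n}))).nullMeasurableSet).trans_le
            (hN.prob hI hB c2).2
        · rw [nsmul_eq_mul]
          exact c6.trans hδ
      refine (measureReal_union_le _ _).trans ?_
      have := measureReal_union_le (μ := P) (⋃ E : T, {ν | N (E.1.1 ∆ A' E) ν ≠ 0})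
        (⋃ t ∈ Λ, S t ⁻¹' {ν | 2 ≤ N (⋃ b, C b) ν})
      linarith

end Pool.Agent.P.MP_c1aa6a_an.ZE
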