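import Pool.Agent.P.MP_c1aa6a_an.ZE.Tower

/-! The reduction to mixing maps of entropy zero, for continuous actions. -/

set_option autoImplicit false
open MeasureTheory Set Filter Topology
open scoped ENNReal NNReal symmDiff

namespace Pool.Agent.P.MP_c1aa6a_an.ZE

open Mix

/-- A measurable family of mixing maps of entropy zero whose isomorphism relation is `E`. -/
def OutZ (X : Type) [MeasurableSpace X] (E : X → X → Prop) : Prop :=
  ∃ f : X → ℝ → ℝ, (∀ x, MixAll mI (f x) ∧ Zent mI (f x) ∧ ∃ g, Conj mI mI (f x) g) ∧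
    (∀ A B, MeasurableSet A → MeasurableSet B → Measurable fun x => mI (f x ⁻¹' A ∩ B)) ∧
    ∀ x y, E x y ↔ IsoR mI (f x) (f y)

theorem poq (ξ : Measure Xi) [IsProbabilityMeasure ξ] (K : ℕ → Set Q) (V : Avg) (X : Type)
    [MeasurableSpace X] (s : X → ℤ → Q → Q) (hK : Exh ξ K)
    (hs : ∀ x, ZA (mQ ξ) (s x) ∧ ZT (mQ ξ) K (s x) ∧ Sing1 (mQ ξ) (s x) V ∧
      Sing2 (mQ ξ) K (s x) V) (hw : ∀ x, TW (mQ ξ) (s x))
    (hm : Measurable (fun p : X × Q => s p.1 1 p.2)) :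
    OutZ X fun x y => IsoR (mQ ξ) (s x 1) (s y 1) := by
  have hMIX := p_MIX p_LF
  have hMIX2 := p_MIX2
  have hMEAS := p_MEAS p_LF
  have hFC := p_FC (p_HC p_LF)
  have hBACK := p_BACK p_PT
  rcases isEmpty_or_nonempty X with hX | ⟨⟨x0⟩⟩
  · exact ⟨fun _ => id, fun x => isEmptyElim x, fun _ _ _ _ => measurable_of_empty _,
      fun x => isEmptyElim x⟩
  obtain ⟨P, hP, hL⟩ := lap_ok ξ
  obtain ⟨I, hI⟩ := chaos_ok approx_ok ξ P hL
  obtain ⟨l1, -, l3, l4, l5⟩ := lift_all ξ P I hI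
  choose S hS using fun x t => l1 (s x t) ((hs x).1.1 t)
  have hZ : ∀ x, ZA P (S x) := fun x => za_lift hI (hs x).1 (hS x)
  have hM : ∀ x, MixZ P (S x) := fun x k A hA n hn =>
    hMIX2 P k (fun r i => S x (n r i)) (fun r i => (hZ x).1 _)
      (fun l => hMIX ξ P I hI K (s x) (S x) hK (hs x).1 (hS x) (hs x).2.1 k l n hn) A hA
  obtain ⟨e, e', he⟩ := transfer_ok Cf P ((hMEAS ξ P I hI).2 _ (hZ x0) (hM x0))
  refine ⟨fun x t => e (S x 1 (e' t)), fun x => ⟨POQx.mix_conj he (hZ x) (hM x),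
    zent_conj he ((hZ x).1 1) (zent_poisson hI (hs x).1 (hS x) (hw x)), _,
    Step2.conj_comp (Step2.conj_comp (Step2.conj_symm he) ((hZ x).conj 1)) he⟩,
    fun A B hA hB => ?_, fun x y => ?_⟩
  · simp only [fun x => POQx.meas_conj he ((hZ x).1 1) hA hB]
    exact (hMEAS ξ P I hI).1 X (fun x => s x 1) (fun x => S x 1) hm (fun x => hS x 1) _ _
      (he.1.measurable hA) (he.1.measurable hB)
  rw [← POQx.iso_conj he ((hZ x).1 1) ((hZ y).1 1)]
  constructor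
  · rintro ⟨θ, θ', hθ, hint⟩
    obtain ⟨Θ, hΘ⟩ := l1 θ hθ.1
    obtain ⟨Θ', hΘ'⟩ := l1 θ' hθ.2.1
    exact ⟨Θ, Θ', ⟨hΘ.2.1, hΘ'.2.1, l4 _ _ _ _ (l3 _ _ _ _ hΘ hΘ') l5 hθ.2.2.1,
      l4 _ _ _ _ (l3 _ _ _ _ hΘ' hΘ) l5 hθ.2.2.2⟩,
      l4 _ _ _ _ (l3 _ _ _ _ (hS x 1) hΘ) (l3 _ _ _ _ hΘ (hS y 1)) hint⟩
  · rintro ⟨Θ, Θ', hΘ, hint⟩
    have h1 := (hZ x).itw (hZ y) hΘ.1 hint
    exact hBACK ξ P I hL hI _ _ _ _ Θ Θ' (hS x 1) (hS y 1) hΘ hint
      (hFC ξ P I hI K V (s x) (s y) (S x) (S y) Θ hK (hs x).1 (hs y).1 (hS x) (hS y)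
        (hs x).2.2.2 (hs y).2.2.1 hΘ.1 h1)
      (hFC ξ P I hI K V (s y) (s x) (S y) (S x) Θ' hK (hs y).1 (hs x).1 (hS y) (hS x)
        (hs y).2.2.2 (hs x).2.2.1 hΘ.2.1 fun t => POQx.itw_symm hΘ ((hZ x).1 t) (h1 t))

open POIx in
theorem poi (Z : Type) [MeasurableSpace Z] [StandardBorelSpace Z] (ζ : Measure Z)
    [IsProbabilityMeasure ζ] (hZ : ¬ Countable Z) (a : ℕ → ℕ) (V : Avg) (X : Type)
    [MeasurableSpace X] (T : X → ℤ → ℕ × Z → ℕ × Z) (ha : Monotone a) (ha' : ∀ n, n < a n)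
    (hT : ∀ x, ZA (mW ζ) (T x) ∧ ZT (mW ζ) (fun n => Lv Z (a n)) (T x) ∧ Sing1 (mW ζ) (T x) V ∧
      Sing2 (mW ζ) (fun n => Lv Z (a n)) (T x) V) (hw : ∀ x, TW (mW ζ) (T x))
    (hm : Measurable (fun p : X × (ℕ × Z) => T p.1 1 p.2)) :
    OutZ X fun x y => IsoR (mW ζ) (T x 1) (T y 1) := by
  have : Infinite Idx := Infinite.of_injective
    (fun c : ℕ => (⟨c, default, default, ∅, ∅, ∅⟩ : Idx)) fun _ _ e => congrArg Idx.c e
  obtain ⟨e0⟩ : Nonempty (ℕ ≃ Idx) := nonempty_equiv_of_countable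
  let e : ℕ ≃ᵐ Idx := ⟨e0, measurable_of_countable _, measurable_of_countable _⟩
  have he : MeasurePreserving e Measure.count Measure.count := ⟨e.measurable, by
    refine Measure.ext_of_singleton fun i => ?_
    rw [e.map_apply, Measure.count_singleton, ← Measure.count_singleton (e.symm i)]
    congr 1
    ext n
    simp only [mem_preimage, mem_singleton_iff]
    exact ⟨fun h => by rw [← h, e.symm_apply_apply], fun h => by rw [h, e.apply_symm_apply]⟩⟩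
  have hXi : ¬ Countable Xi := fun hc => by
    have h1 := Cardinal.mk_le_aleph0_iff.2 hc
    rw [Cardinal.mk_arrow, Cardinal.lift_id, Cardinal.lift_id, Cardinal.mk_bool] at h1
    exact ((Cardinal.cantor _).trans_le h1).not_ge (Cardinal.aleph0_le_mk Crd)
  let ι : Z ≃ᵐ Xi := PolishSpace.measurableEquivOfNotCountable hZ hXi
  have : IsProbabilityMeasure (ζ.map ι) := Measure.isProbabilityMeasure_map ι.measurable.aemeasurable
  have h : MeasurePreserving (e.prodCongr ι) (mW ζ) (mQ (ζ.map ι)) :=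
    he.prod (ι.measurable.measurePreserving ζ)
  refine (poq (ζ.map ι) (fun n => (e.prodCongr ι).symm ⁻¹' Lv Z (a n)) V X
    (fun x t q => e.prodCongr ι (T x t ((e.prodCongr ι).symm q))) ⟨fun n => ⟨?_, ?_⟩, ?_, ?_⟩
    (fun x => ⟨za h (hT x).1, ?_, sing1 h (hT x).2.2.1, ?_⟩) (fun x => tw_equiv h (hw x)) ?_).imp
    fun f hf => ⟨hf.1, hf.2.1, fun x y => (iso_iff h).symm.trans (hf.2.2 x y)⟩
  · exact (e.prodCongr ι).symm.measurable (measurableSet_Lv _)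
  · rw [(h.symm _).measure_preimage_equiv]
    exact (real_Lv ζ _).1
  · exact fun n m hnm q hq => lt_of_lt_of_le hq (ha hnm)
  · intro E
    obtain ⟨S, hS⟩ := First.co_finite E
    exact ⟨S.sup e.symm, fun q hq => (Finset.le_sup (f := e.symm) (hS q hq)).trans_lt (ha' _)⟩
  · simpa only [ZT, cor_eq h] using (hT x).2.1
  · simpa only [Sing2, cor_eq h] using (hT x).2.2.2
  · exact (e.prodCongr ι).measurable.comp (hm.comp
      (measurable_fst.prodMk ((e.prodCongr ι).symm.measurable.comp measurable_snd)))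

open REDx Step2 in
theorem red (Y : Type) [MeasurableSpace Y] [StandardBorelSpace Y] (μ : Measure Y)
    [IsProbabilityMeasure μ] (X : Type) [MeasurableSpace X] (α : X → ℕ → Y → Y)
    (hm : ∀ j, Measurable fun p : X × Y => α p.1 j p.2)
    (hα : ∀ x, Fam μ (α x) ∧ ErgFam μ (α x)) :
    OutZ X fun x y => ∃ h h', Conj μ μ h h' ∧ ∀ j, Itw μ h (α x j) (α y j) := by
  have hTM := p_TM
  have hC := p_C p_KEY
  have hS1 := p_S1 p_TM p_APX (p_S0 p_TM p_KEY (p_C p_KEY) p_CNT)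
  have hS2 := p_S2 p_KEY (p_C p_KEY) p_CNT
  have hAGR := p_AGR p_KEY (p_C p_KEY) p_APX
  have hISO := p_ISO p_TM
  have hFL0 := p_FL0
  obtain ⟨D⟩ := p_TD
  have : Nonempty Y := μ.nonempty_of_neZero
  have hz : ∀ x, ZA (mT μ) (D.T (α x)) := fun x =>
    TD.za (hα x).1.2 (hTM.2 D Y μ (α x) (hα x).1)
  obtain ⟨f, h1, h2, h3⟩ := poi (Dg × Y) ((unif (ℕ × ℕ)).prod μ) (not_countable Y) D.A D.V X
    (fun x => D.T (α x)) D.monoA D.ltA
    (fun x => ⟨hz x, ((hC Y μ (α x) (hα x).1).2 D).2, hS1 D Y μ (α x) (hα x).1,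
      hS2 D Y μ (α x) (hα x).1⟩) (fun x => tw_tower D (hα x).1) (hTM.1 D X Y α hm 1)
  refine ⟨f, h1, h2, fun x y => Iff.trans ⟨?_, ?_⟩ (h3 x y)⟩
  · rintro ⟨h, h', hc, hi⟩
    exact ⟨fib h, fib h', conj_fib hc, hISO D Y μ (α x) (α y) h (hα x).1 (hα y).1 hc.1 hi 1⟩
  · rintro ⟨θ, θ', hc, hi⟩
    have h4 := hAGR D Y μ (α x) (α y) θ (hα x).1 (hα y).1 hc.1 ((hz x).itw (hz y) hc.1 hi)
    have hA := conj_equiv MeasurableEquiv.prodAssoc
      (measurePreserving_prodAssoc (Measure.count : Measure ℕ) (unif (ℕ × ℕ)) μ)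
    refine hFL0 (ℕ × Dg) Y ℕ ((Measure.count : Measure ℕ).prod (unif (ℕ × ℕ))) μ (α x) (α y) _ _
      (fun e => ?_) (hα x).1.1 (hα y).1.1 (hα x).2 (hα y).2
      (conj_comp (conj_comp hA hc) (conj_symm hA)) fun j => ?_
    · have := measure_Lv (unif (ℕ × ℕ)) 1
      rw [mW, e] at this
      simp at this
    · filter_upwards [aec hA.1 (h4 j)] with w hw
      have hw' : θ (w.1.1, w.1.2, α x j w.2) = _ := hw
      change MeasurableEquiv.prodAssoc.symm (θ (w.1.1, w.1.2, α x j w.2)) = _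
      rw [hw']
      rfl

open Step1 Step2 in
theorem main_cont
    (G : Type) [TopologicalSpace G] [Group G] [IsTopologicalGroup G] [PolishSpace G]
    (X : Type) [TopologicalSpace X] [PolishSpace X] [MeasurableSpace X] [BorelSpace X]
    [MulAction G X] [ContinuousSMul G X] : OutZ X fun x y => ∃ g : G, g • x = y := by
  let _ := TopologicalSpace.upgradeIsCompletelyMetrizable G
  let _ := TopologicalSpace.upgradeIsCompletelyMetrizable X
  obtain ⟨N, hN⟩ := norm_ok G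
  obtain ⟨V, hV, hV0, hVb⟩ := exists_basis X
  obtain ⟨lev, lab, pp, dead, π, D, hdm, hmod⟩ := model_ok G X N V hN hV
  set M : X → WS := fun x => ⟨lev, lab, pp, dead x⟩ with hM
  have hRm : ∀ c k k', MeasurableSet {x | Rel (M x) c k k'} := fun c k k' => by
    match c with
    | 0 => exact MeasurableSet.const _
    | 1 =>
      exact (MeasurableSet.const (k.2 = true ∧ pp k.1 k')).union
        ((MeasurableSet.const (k'.2 = true ∧ pp k'.1 k)).union
        ((MeasurableSet.const (k = k')).inter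
          ((MeasurableSet.const (k.2 = true)).inter (hdm k.1))))
    | c + 2 => exact MeasurableSet.const (k = k' ∧ c = Nat.pair (lev k.1)
        (if k.2 = true then lab k.1 else 0))
  obtain ⟨P, hP, hL⟩ := lap_ok (xi lev)
  obtain ⟨I, hI⟩ := chaos_ok approx_ok (xi lev) P hL
  obtain ⟨en, hen⟩ := exists_surjective_nat Gen
  obtain ⟨hs1, hs2⟩ := sys_ok lift_all maps_ok first_all pe_ok bern_ok lev P I hI
  obtain ⟨f, h1, h2, h3⟩ := red (Yl × Cf) ((unif (At × ℕ)).prod P) X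
    (fun x j => alpha (Rel (M x)) (en j)) (fun j => hs2 X _ hRm (en j))
    fun x => ⟨⟨fun j => (hs1 _).1.1 _, fun j => (hs1 _).1.2.1 _, fun i j => (hs1 _).1.2.2 _ _⟩,
      fun A hA h => (hs1 _).2 A hA fun g => by obtain ⟨j, rfl⟩ := hen g; exact h j⟩
  refine ⟨f, h1, h2, fun x y => Iff.trans ⟨?_, ?_⟩ (h3 x y)⟩
  · rintro ⟨g, rfl⟩
    obtain ⟨τ, fl, k1, k2, k3, k4⟩ := baf_ok G X N V (g • x) (M x) (M (g • x)) _ _ _ _ hN hV hV0
      (model_translate (hmod x) g) (hmod (g • x))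
    obtain ⟨Θ, Θ', hΘ, hint⟩ := iso_ok lift_all maps_ok lev P I hI (Rel (M x)) (Rel (M (g • x)))
      τ fl k1 (rel_of_iso k1 k2 k3) k4
    exact ⟨Θ, Θ', hΘ, fun j => hint (en j)⟩
  · rintro ⟨Θ, Θ', hΘ, hint⟩
    have h4 : ∀ g, Itw ((unif (At × ℕ)).prod P) Θ (alpha (Rel (M x)) g) (alpha (Rel (M y)) g) :=
      fun g => by obtain ⟨j, rfl⟩ := hen g; exact hint j
    have hl := (lift_all _ P I hI).2.1
    obtain ⟨b, b', hb1, hb2, h, h', hh, hc1, hc2⟩ := fl_ok Yl Cf (Cell × ℕ) (unif (At × ℕ)) P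
      (fun p => act (uC p)) (fun i b => act (rho (Rel (M x)) fun a => b (a, i)))
      (fun i b => act (rho (Rel (M y)) fun a => b (a, i))) Θ Θ' Generic
      (fun p => (hl _ (maps_ok.2.1 lev p).1 (maps_ok.2.1 lev p).2).2.1)
      (first_all lev P I hI).1 hΘ (fun p => h4 (Sum.inr (Sum.inr p)))
      (fun i => h4 (Sum.inr (Sum.inl i))) bern_ok.2.2.2.2.2.2
    obtain ⟨Corr, hC, hCe⟩ := corr_ok first_all (char_ok approx_ok) lift_all maps_ok lev P I hL hI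
      h h' hh hc1 (fun i => rho (Rel (M y)) fun a => b' (a, i))
      (fun i => rho (Rel (M x)) fun a => b (a, i))
      (fun i => hl _ (maps_ok.1 lev _ _).1 (maps_ok.1 lev _ _).2)
      (fun i => hl _ (maps_ok.1 lev _ _).1 (maps_ok.1 lev _ _).2) hc2
    obtain ⟨σ, hσ⟩ := dec1_ok maps_ok lev _ _ b' b Corr hb2 hb1 hC hCe
    obtain ⟨σ₀, hσ₀, hs⟩ := dec3_ok lev _ _ Corr σ (rel_symm (M y)) (rel_symm (M x)) hC
      (dec2_ok maps_ok approx_ok lev _ _ b' b Corr hb2 hb1 hC hCe σ hσ)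
    obtain ⟨g, hg⟩ := conv_ok G X N V y x (M y) (M x) π π D D hN hV hV0 hVb (hmod y) (hmod x)
      (iso_of_rel σ₀ hσ₀ hs)
    exact ⟨g⁻¹, by rw [← hg, inv_smul_smul]⟩

end Pool.Agent.P.MP_c1aa6a_an.ZE
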