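import Pool.Agent.P.MP_c1aa6a_an.ZE.Pois

/-! The lacunary tower has thin bases; transfer lemmas. -/

set_option autoImplicit false
open MeasureTheory Set Filter Topology
open scoped ENNReal NNReal symmDiff

namespace Pool.Agent.P.MP_c1aa6a_an.ZE

open Mix

section tower

variable {Y : Type}

/-- The set sees only the bits in `F`. -/
def Dep (F : Finset (ℕ × ℕ)) (B : Set (W Y)) : Prop :=
  ∀ ω ω' : W Y, ω.1 = ω'.1 → (∀ c ∈ F, ω.2.1 c = ω'.2.1 c) → ω.2.2 = ω'.2.2 → (ω ∈ B ↔ ω' ∈ B)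

theorem Dep.mono {F F' : Finset (ℕ × ℕ)} {B : Set (W Y)} (h : Dep F B) (hF : F ⊆ F') : Dep F' B :=
  fun ω ω' h1 h2 h3 => h ω ω' h1 (fun c hc => h2 c (hF hc)) h3

theorem G_congr' (α : ℕ → Y → Y) {n : ℕ} {d d' : Dg} (h : ∀ j < n, d (j, 0) = d' (j, 0)) :
    G α n d = G α n d' := by
  induction n with
  | zero => rfl
  | succ n ih =>
    funext y
    simp only [G, h n (Nat.lt_succ_self n), ih fun j hj => h j (Nat.lt_succ_of_lt hj)]

theorem inv_spec (D : TD) {n : ℕ} {k : ℤ} (h0 : 0 ≤ k) (h1 : k < D.h n) :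
    (D.inv n k).1 < D.A n ∧ D.pos n (D.inv n k).1 (D.inv n k).2 = k := by
  rw [TD.inv, dif_pos ⟨h0, h1⟩]
  exact Classical.choose_spec (D.surj n _ h0 h1)

/-- The base of the `m`-th tower. -/
def Base (D : TD) (Y : Type) (m : ℕ) : Set (W Y) :=
  {ω | ω.1 = (D.inv m 0).1 ∧ ∀ c ∈ Tri m, ω.2.1 c = (D.inv m 0).2 c}

theorem base_pos {D : TD} {m : ℕ} {ω : W Y} (h : ω ∈ Base D Y m) :
    ω.1 < D.A m ∧ D.pos m ω.1 ω.2.1 = 0 := by
  have := inv_spec D le_rfl (TD.h_pos (D := D) m)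
  rw [h.1, D.dep _ _ _ _ h.2]
  exact this

variable {α : ℕ → Y → Y}

theorem base_T {D : TD} (hα : CI α) {m : ℕ} {ω : W Y} (h : ω ∈ Base D Y m) {k : ℤ} (h0 : 0 ≤ k)
    (h1 : k < D.h m) : D.T α k ω = ((D.inv m k).1,
      fun c => if c ∈ Tri m then (D.inv m k).2 c else ω.2.1 c,
      G α m (D.inv m k).2 (G α m ω.2.1 ω.2.2)) := by
  have h2 := base_pos h
  rw [(TD.mv_rel hα h2.1 (t := k) (by omega) (by omega)).T_eq hα, TD.mv, h2.2, zero_add]

theorem base_disj {D : TD} (hα : CI α) {m : ℕ} {ω : W Y} (h : ω ∈ Base D Y m) {k : ℤ} (h0 : 0 ≤ k)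
    (h1 : k < D.h m) (h' : D.T α k ω ∈ Base D Y m) : k = 0 := by
  have h2 := base_pos h
  have h3 := TD.mv_rel hα h2.1 (t := k) (by omega) (by omega)
  have h4 := h3.2.2.2.1
  rw [← h3.T_eq hα, (base_pos h').2, h2.2] at h4
  omega

theorem to_base {D : TD} (hα : CI α) {m : ℕ} {ω : W Y} (h : ω.1 < D.A m) :
    D.T α (-D.pos m ω.1 ω.2.1) ω ∈ Base D Y m := by
  have h2 := TD.h_pos (D := D) m
  rw [(TD.mv_rel hα h (t := -D.pos m ω.1 ω.2.1) (by omega) (by omega)).T_eq hα, TD.mv,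
    add_neg_cancel]
  exact ⟨rfl, fun c hc => if_pos hc⟩

theorem base_eq (D : TD) (m : ℕ) : Base D Y m = {(D.inv m 0).1} ×ˢ
    ((Set.pi (Tri m) fun c => {(D.inv m 0).2 c}) ×ˢ univ) := by
  ext ω
  simp [Base]

variable [MeasurableSpace Y] {μ : Measure Y} [IsProbabilityMeasure μ]

theorem meas_base (D : TD) (m : ℕ) : MeasurableSet (Base D Y m) := by
  rw [base_eq]
  exact (measurableSet_singleton _).prod ((MeasurableSet.pi (Tri m).countable_toSet
    fun _ _ => measurableSet_singleton _).prod MeasurableSet.univ)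

theorem card_Tri (r : ℕ) : 2 * r ≤ (Tri (r + 1)).card := by
  have h : (Finset.Ico 1 (r + 1) ×ˢ Finset.range 2) ⊆ Tri (r + 1) := fun c hc => by
    simp only [Finset.mem_product, Finset.mem_Ico, Finset.mem_range] at hc
    rw [mem_Tri]
    omega
  have := Finset.card_le_card h
  simp only [Finset.card_product, Nat.card_Ico, Finset.card_range] at this
  omega

theorem real_base (D : TD) (r : ℕ) : (mT μ).real (Base D Y (r + 1)) ≤ (1 / 2) ^ r * (1 / 2) ^ r := by
  have h : mT μ (Base D Y (r + 1)) = 2⁻¹ ^ (Tri (r + 1)).card := by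
    rw [base_eq, mT, mW, Measure.prod_prod, Measure.prod_prod, Measure.count_singleton,
      measure_univ, one_mul, mul_one, unif,
      Measure.infinitePi_pi _ fun _ _ => measurableSet_singleton _]
    simp [Maps.bern_single]
  rw [measureReal_def, h, ENNReal.toReal_pow, ← pow_add, ← two_mul]
  simp only [ENNReal.toReal_inv, ENNReal.toReal_ofNat, one_div]
  exact pow_le_pow_of_le_one (by norm_num) (by norm_num) (card_Tri r)

theorem apx (μ : Measure Y) [IsProbabilityMeasure μ] (D : TD) {B : Set (W Y)}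
    (hB : MeasurableSet B) (hfin : mT μ B ≠ ∞) {ε : ℝ≥0∞} (hε : 0 < ε) :
    ∃ (n : ℕ) (F : Finset (ℕ × ℕ)) (B' : Set (W Y)), MeasurableSet B' ∧ B' ⊆ Lv _ (D.A n) ∧
      Dep F B' ∧ mT μ (B ∆ B') < ε := by
  classical
  let R : Set (Set (W Y)) := {V | MeasurableSet V ∧ ∃ F, Dep F V}
  have hR : IsSetRing R :=
    { empty_mem := ⟨MeasurableSet.empty, ∅, fun _ _ _ _ _ => Iff.rfl⟩
      union_mem := by
        rintro s t ⟨s1, F, s2⟩ ⟨t1, F', t2⟩
        exact ⟨s1.union t1, F ∪ F', fun ω ω' h1 h2 h3 =>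
          or_congr (s2.mono Finset.subset_union_left ω ω' h1 h2 h3)
            (t2.mono Finset.subset_union_right ω ω' h1 h2 h3)⟩
      sdiff_mem := by
        rintro s t ⟨s1, F, s2⟩ ⟨t1, F', t2⟩
        exact ⟨s1.diff t1, F ∪ F', fun ω ω' h1 h2 h3 =>
          and_congr (s2.mono Finset.subset_union_left ω ω' h1 h2 h3)
            (t2.mono Finset.subset_union_right ω ω' h1 h2 h3).not⟩ }
  have hgen : (inferInstance : MeasurableSpace (W Y)) = MeasurableSpace.generateFrom R := by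
    refine le_antisymm ?_ (MeasurableSpace.generateFrom_le fun _ h => h.1)
    have h1 : Measurable[MeasurableSpace.generateFrom R] fun ω : W Y => ω.1 := fun s hs =>
      MeasurableSpace.measurableSet_generateFrom ⟨measurable_fst hs, ∅, fun ω ω' e _ _ => by
        simp only [mem_preimage, e]⟩
    have h3 : Measurable[MeasurableSpace.generateFrom R] fun ω : W Y => ω.2.2 := fun s hs =>
      MeasurableSpace.measurableSet_generateFrom
        ⟨measurable_snd.snd hs, ∅, fun ω ω' _ _ e => by simp only [mem_preimage, e]⟩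
    have h2 : ∀ p, Measurable[MeasurableSpace.generateFrom R] fun ω : W Y => ω.2.1 p :=
      fun p s hs => MeasurableSpace.measurableSet_generateFrom
        ⟨((measurable_pi_apply p).comp measurable_snd.fst) hs, {p}, fun ω ω' _ e _ => by
          simp only [mem_preimage, e p (Finset.mem_singleton_self p)]⟩
    have h4 : Measurable[MeasurableSpace.generateFrom R] fun ω : W Y => ω.2.1 :=
      @measurable_pi_lambda _ _ _ (MeasurableSpace.generateFrom R) _ _ h2
    exact fun s hs => (h1.prodMk (h4.prodMk h3)) hs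
  obtain ⟨n, B₁, ⟨b1, b2, -⟩, b3⟩ :=
    (p_APX Y μ D.A D.monoA D.ltA B hB hfin).1 _ (ENNReal.half_pos hε.ne')
  have : IsFiniteMeasure ((mT μ).restrict (Lv _ (D.A n))) := ⟨by
    rw [Measure.restrict_apply_univ, measure_Lv]
    exact ENNReal.natCast_lt_top _⟩
  obtain ⟨t, ⟨t1, F, t2⟩, ht⟩ := exists_measure_symmDiff_lt_of_generateFrom_isSetRing
    (μ := (mT μ).restrict (Lv _ (D.A n))) hR
    ⟨{univ}, countable_singleton _, singleton_subset_iff.2
      ⟨MeasurableSet.univ, ∅, fun _ _ _ _ _ => Iff.rfl⟩, by simp⟩ hgen b1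
    (ENNReal.half_pos hε.ne')
  rw [Measure.restrict_apply (t1.symmDiff b1)] at ht
  refine ⟨n, F, t ∩ Lv _ (D.A n), t1.inter (measurableSet_Lv _), inter_subset_right,
    fun ω ω' h1 h2 h3 => and_congr (t2 ω ω' h1 h2 h3) (by simp only [Lv, mem_ofPred_eq, h1]), ?_⟩
  refine lt_of_le_of_lt ((measure_mono (t := (B ∆ B₁) ∪ (t ∆ B₁ ∩ Lv _ (D.A n)))
    fun ω hω => ?_).trans (measure_union_le _ _)) ?_
  · have := @b2 ω
    simp only [mem_symmDiff, mem_inter_iff, mem_union] at hω ⊢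
    tauto
  · exact (ENNReal.add_lt_add b3 ht).trans_eq (ENNReal.add_halves ε)

theorem tw_tower (D : TD) (hα : Fam μ α) : TW (mT μ) (D.T α) := by
  classical
  intro ι _ A hA ε hε
  have hc : CI α := hα.2
  have hT := p_TM.2 D Y μ α hα
  choose n₀ F₀ B hB1 hB2 hB3 hB4 using fun i => apx μ D (hA i).1 (hA i).2
    (ENNReal.ofReal_pos.2 hε)
  let n := Finset.univ.sup n₀
  let F := Finset.univ.biUnion F₀
  have hBn : ∀ i ω, ω ∈ B i → ω.1 < D.A n := fun i ω h =>
    lt_of_lt_of_le (hB2 i h) (D.monoA (Finset.le_sup (f := n₀) (Finset.mem_univ i)))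
  have hBF : ∀ i, Dep F (B i) := fun i =>
    (hB3 i).mono (Finset.subset_biUnion_of_mem F₀ (Finset.mem_univ i))
  obtain ⟨K, hK⟩ : ∃ K : ℕ, K = (D.A n + 1) * 2 ^ F.card * Fintype.card ι := ⟨_, rfl⟩
  have hlim : Tendsto (fun r : ℕ => ((2 + 2 * K + D.A n : ℝ)) * (1 / 2) ^ r) atTop (𝓝 0) := by
    have := (tendsto_pow_atTop_nhds_zero_of_lt_one (r := (1 / 2 : ℝ)) (by norm_num)
      (by norm_num)).const_mul (2 + 2 * K + D.A n : ℝ)
    rwa [mul_zero] at this
  obtain ⟨r, hr1, hr2⟩ := ((hlim.eventually (ge_mem_nhds hε)).and (eventually_ge_atTop n)).exists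
  have hAm : D.A n ≤ D.A (r + 1) := D.monoA (by omega)
  let Λ : Finset ℤ := (Finset.Ioc (-D.h (r + 1)) 0).filter fun t => (D.inv (r + 1) (-t)).1 < D.A n
  have hΛ : ∀ t ∈ Λ, 0 ≤ -t ∧ -t < D.h (r + 1) ∧ (D.inv (r + 1) (-t)).1 < D.A n := fun t ht => by
    obtain ⟨h1, h2⟩ := Finset.mem_filter.1 ht
    rw [Finset.mem_Ioc] at h1
    exact ⟨by omega, by omega, h2⟩
  let key : ℤ → Fin (D.A n + 1) × (F → Bool) × (Fin (r + 1) → Bool) := fun t =>
    (⟨min (D.inv (r + 1) (-t)).1 (D.A n), Nat.lt_succ_of_le (min_le_right _ _)⟩,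
      fun c => (D.inv (r + 1) (-t)).2 c, fun j => (D.inv (r + 1) (-t)).2 (j, 0))
  have hkey : ∀ t ∈ Λ, ∀ t' ∈ Λ, key t = key t' → ∀ ω ∈ Base D Y (r + 1), ∀ i,
      (D.T α (-t) ω ∈ B i ↔ D.T α (-t') ω ∈ B i) := by
    intro t ht t' ht' e ω hω i
    obtain ⟨a1, a2, a3⟩ := hΛ t ht
    obtain ⟨b1, b2, b3⟩ := hΛ t' ht'
    have e1 : min (D.inv (r + 1) (-t)).1 (D.A n) = min (D.inv (r + 1) (-t')).1 (D.A n) :=
      congrArg (fun z => z.1.1) e
    have e2 : ∀ c ∈ F, (D.inv (r + 1) (-t)).2 c = (D.inv (r + 1) (-t')).2 c := fun c hc' =>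
      congrArg (fun z => z.2.1 ⟨c, hc'⟩) e
    have e3 : ∀ j < r + 1, (D.inv (r + 1) (-t)).2 (j, 0) = (D.inv (r + 1) (-t')).2 (j, 0) :=
      fun j hj => congrArg (fun z => z.2.2 ⟨j, hj⟩) e
    rw [base_T hc hω a1 a2, base_T hc hω b1 b2]
    refine hBF i _ _ (by simp only; omega) (fun c hc' => ?_) ?_
    · simp only [e2 c hc']
    · simp only [G_congr' α e3]
  let rep := Function.invFunOn key (Λ : Set ℤ)
  let τ : W Y → (Fin (D.A n + 1) × (F → Bool) × (Fin (r + 1) → Bool)) × ι → Bool := fun ω j =>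
    decide (D.T α (-rep j.1) ω ∈ B j.2)
  have hτm : Measurable τ := measurable_pi_lambda _ fun j => by
    refine measurable_to_bool ?_
    have : (fun ω => τ ω j) ⁻¹' {true} = D.T α (-rep j.1) ⁻¹' B j.2 := by
      ext ω; simp [τ]
    rw [this]
    exact (hT _).measurable (hB1 _)
  have hτ : ∀ t ∈ Λ, ∀ ω ∈ Base D Y (r + 1), ∀ i,
      (τ ω (key t, i) = true ↔ D.T α (-t) ω ∈ B i) := fun t ht ω hω i => by
    have h1 : ∃ a ∈ (Λ : Set ℤ), key a = key t := ⟨t, ht, rfl⟩
    simp only [τ, decide_eq_true_eq]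
    exact hkey _ (Function.invFunOn_mem h1) _ ht (Function.invFunOn_eq h1) ω hω i
  have hU : (⋃ b, Base D Y (r + 1) ∩ τ ⁻¹' {b}) = Base D Y (r + 1) := by
    ext ω; simp
  have hdis : ∀ t ∈ Λ, ∀ t' ∈ Λ, ∀ y, D.T α t y ∈ Base D Y (r + 1) →
      D.T α t' y ∈ Base D Y (r + 1) → t = t' := by
    have h1 : ∀ t ∈ Λ, ∀ t' ∈ Λ, t ≤ t' → ∀ y, D.T α t y ∈ Base D Y (r + 1) →
        D.T α t' y ∈ Base D Y (r + 1) → t = t' := fun t ht t' ht' hle y h h' => by
      obtain ⟨a1, a2, -⟩ := hΛ t ht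
      obtain ⟨b1, b2, -⟩ := hΛ t' ht'
      have := base_disj hc h (k := t' - t) (by omega) (by omega)
        (by rwa [← TD.T_add hc, sub_add_cancel])
      omega
    intro t ht t' ht' y h h'
    rcases le_total t t' with hle | hle
    · exact h1 t ht t' ht' hle y h h'
    · exact (h1 t' ht' t ht hle y h' h).symm
  have hL := real_Lv ((unif (ℕ × ℕ)).prod μ) (D.A n)
  have hfin : mT μ (Base D Y (r + 1)) ≠ ∞ :=
    measure_ne_top_of_subset (fun ω hω => (base_pos hω).1)
      (real_Lv ((unif (ℕ × ℕ)).prod μ) (D.A (r + 1))).1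
  have hb := real_base (μ := μ) D r
  have hb0 : 0 ≤ (mT μ).real (Base D Y (r + 1)) := measureReal_nonneg
  have hq0 : (0 : ℝ) < (1 / 2) ^ r := by positivity
  have hq1 : (1 / 2 : ℝ) ^ r ≤ 1 := pow_le_one₀ (by norm_num) (by norm_num)
  have hq2 : (1 / 2 : ℝ) ^ r * 2 ^ r = 1 := by rw [← mul_pow]; norm_num
  have hK0 : (0 : ℝ) ≤ K := Nat.cast_nonneg _
  have hA0 : (0 : ℝ) ≤ D.A n := Nat.cast_nonneg _
  refine ⟨_ → Bool, inferInstance, fun b => Base D Y (r + 1) ∩ τ ⁻¹' {b}, Λ,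
    fun i t => Finset.univ.filter fun b => b (key t, i) = true,
    fun b => (meas_base D _).inter (hτm (measurableSet_singleton b)), by rwa [hU],
    fun b b' y h h' => h.2.symm.trans h'.2, by rwa [hU], ?_, ?_, fun i => ?_⟩
  · rw [hU]
    have h1 : Fintype.card ((Fin (D.A n + 1) × (F → Bool) × (Fin (r + 1) → Bool)) × ι → Bool) =
        2 ^ (K * 2 ^ (r + 1)) := by
      simp only [Fintype.card_fun, Fintype.card_prod, Fintype.card_bool, Fintype.card_fin,
        Fintype.card_coe, hK]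
      congr 1
      ring
    rw [h1]
    generalize hN : K * 2 ^ (r + 1) = N
    have h2 : Real.log (((2 ^ N : ℕ) : ℝ) + 1) ≤ N + 1 := by
      have h3 : (1 : ℝ) ≤ 2 ^ N := one_le_pow₀ (by norm_num)
      have h4 : ((2 ^ N : ℕ) : ℝ) + 1 ≤ 2 ^ (N + 1) := by push_cast; rw [pow_succ]; linarith
      refine (Real.log_le_log (by positivity) h4).trans ?_
      rw [Real.log_pow]
      have h5 : Real.log 2 ≤ 1 := by
        have := Real.log_le_sub_one_of_pos (x := 2) (by norm_num)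
        linarith
      push_cast
      exact mul_le_of_le_one_right (by positivity) h5
    have h6 : (N : ℝ) = 2 * K * 2 ^ r := by rw [← hN]; push_cast; ring
    have h7 : 0 ≤ 1 + Real.log (((2 ^ N : ℕ) : ℝ) + 1) :=
      add_nonneg zero_le_one (Real.log_nonneg (by
        have : (0 : ℝ) ≤ ((2 ^ N : ℕ) : ℝ) := Nat.cast_nonneg _
        linarith))
    generalize Real.log (((2 ^ N : ℕ) : ℝ) + 1) = x at h2 h7
    generalize (1 / 2 : ℝ) ^ r = q at *
    generalize (2 : ℝ) ^ r = p at *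
    calc _ ≤ q * q * (1 + x) := mul_le_mul_of_nonneg_right hb h7
      _ ≤ q * q * (2 + 2 * K * p) :=
        mul_le_mul_of_nonneg_left (by linarith) (by positivity)
      _ = 2 * q * q + 2 * K * q * (q * p) := by ring
      _ ≤ 2 * q * 1 + 2 * K * q * 1 + D.A n * q := by
        rw [hq2]
        have := mul_le_mul_of_nonneg_left hq1 (show 0 ≤ 2 * q by positivity)
        have := mul_nonneg hA0 hq0.le
        linarith
      _ ≤ ε := by linarith
  · rw [hU]
    have h1 : (Λ.card : ℝ) * (mT μ).real (Base D Y (r + 1)) ≤ D.A n := by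
      have h2 : ∀ t, mT μ (D.T α t ⁻¹' Base D Y (r + 1)) = mT μ (Base D Y (r + 1)) := fun t =>
        (hT t).measure_preimage (meas_base D _).nullMeasurableSet
      have h3 := measureReal_biUnion_finset (μ := mT μ) (s := Λ)
        (f := fun t => D.T α t ⁻¹' Base D Y (r + 1))
        (fun t ht t' ht' hne => Set.disjoint_left.2 fun y h h' => hne (hdis t ht t' ht' y h h'))
        (fun t _ => (hT t).measurable (meas_base D _)) fun t _ => by rwa [h2]
      simp only [measureReal_def, h2, Finset.sum_const, nsmul_eq_mul] at h3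
      rw [measureReal_def, ← h3, ← hL.2, ← measureReal_def]
      refine measureReal_mono (fun y hy => ?_) hL.1
      obtain ⟨t, ht, hy⟩ := mem_iUnion₂.1 hy
      obtain ⟨a1, a2, a3⟩ := hΛ t ht
      have h4 := base_T hc hy a1 a2
      rw [TD.T_neg hc] at h4
      change y.1 < D.A n
      rwa [h4]
    generalize (mT μ).real (Base D Y (r + 1)) = x at *
    generalize (1 / 2 : ℝ) ^ r = q at *
    calc _ = Λ.card * x * x := by ring
      _ ≤ D.A n * (q * q) := mul_le_mul h1 hb hb0 hA0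
      _ ≤ D.A n * (q * 1) :=
        mul_le_mul_of_nonneg_left (mul_le_mul_of_nonneg_left hq1 hq0.le) hA0
      _ ≤ ε := by
        have := mul_nonneg hK0 hq0.le
        linarith
  · have h1 : (⋃ t ∈ Λ, D.T α t ⁻¹' ⋃ b ∈ (Finset.univ.filter fun b => b (key t, i) = true),
        Base D Y (r + 1) ∩ τ ⁻¹' {b}) = B i := by
      ext y
      simp only [mem_iUnion, mem_preimage, mem_inter_iff, mem_singleton_iff, Finset.mem_filter,
        Finset.mem_univ, true_and, exists_prop]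
      constructor
      · rintro ⟨t, ht, b, hb, h2, rfl⟩
        have := (hτ t ht _ h2 i).1 hb
        rwa [TD.T_neg hc] at this
      · intro hy
        have h2 : y.1 < D.A (r + 1) := (hBn i y hy).trans_le hAm
        have h3 := D.bd (r + 1) _ y.2.1 h2
        have h4 := inv_spec D h3.1 h3.2
        have h5 : -D.pos (r + 1) y.1 y.2.1 ∈ Λ := by
          refine Finset.mem_filter.2 ⟨Finset.mem_Ioc.2 ⟨by omega, by omega⟩, ?_⟩
          rw [neg_neg, (D.inj _ _ _ _ _ h4.1 h2 h4.2).1]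
          exact hBn i y hy
        refine ⟨_, h5, _, (hτ _ h5 _ (to_base hc h2) i).2 ?_, to_base hc h2, rfl⟩
        rwa [TD.T_neg hc]
    rw [h1]
    exact ENNReal.toReal_le_of_le_ofReal hε.le (hB4 i).le

end tower

section transfer

variable {Y Z : Type} [MeasurableSpace Y] [MeasurableSpace Z] {μ : Measure Y} {ν : Measure Z}

theorem tw_equiv {Φ : Y ≃ᵐ Z} (h : MeasurePreserving Φ μ ν) {T : ℤ → Y → Y} (hT : TW μ T) :
    TW ν fun t q => Φ (T t (Φ.symm q)) := by
  intro ι _ A hA ε hε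
  obtain ⟨β, _, C, Λ, ψ, h1, h2, h3, h4, h5, h6, h7⟩ := hT ι (fun i => Φ ⁻¹' A i)
    (fun i => ⟨Φ.measurable (hA i).1, by rw [h.measure_preimage_equiv]; exact (hA i).2⟩) ε hε
  have e : ∀ S : Set Y, ν (Φ.symm ⁻¹' S) = μ S := fun S => (h.symm Φ).measure_preimage_equiv S
  have e' : ∀ S : Set Y, ν.real (Φ.symm ⁻¹' S) = μ.real S := fun S => by
    rw [measureReal_def, measureReal_def, e]
  refine ⟨β, inferInstance, fun b => Φ.symm ⁻¹' C b, Λ, ψ, fun b => Φ.symm.measurable (h1 b),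
    by rwa [← preimage_iUnion, e], fun b b' y => h3 b b' _, fun t ht t' ht' y a b =>
      h4 t ht t' ht' (Φ.symm y) ?_ ?_, by rwa [← preimage_iUnion, e'],
    by rwa [← preimage_iUnion, e'], fun i => ?_⟩
  · rwa [← preimage_iUnion, mem_preimage, Φ.symm_apply_apply] at a
  · rwa [← preimage_iUnion, mem_preimage, Φ.symm_apply_apply] at b
  · refine le_of_eq_of_le ?_ (h7 i)
    rw [← e']
    congr 1
    ext q
    simp [Set.mem_symmDiff]

theorem zent_conj {e : Y → Z} {e' : Z → Y} (he : Conj μ ν e e') {T : Y → Y}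
    (hT : MeasurePreserving T μ μ) (hZ : Zent μ T) : Zent ν fun t => e (T (e' t)) := by
  intro k π hπ
  refine (hZ k (fun y => π (e y)) (hπ.comp he.1.measurable)).congr fun n => ?_
  congr 1
  refine Finset.sum_congr rfl fun w _ => ?_
  congr 1
  have hm : MeasurableSet {t | ∀ i : Fin n, π (e (T^[i] t)) = w i} := by
    rw [ofPred_forall]
    exact MeasurableSet.iInter fun i =>
      ((hπ.comp he.1.measurable).comp (hT.measurable.iterate i)) (measurableSet_singleton (w i))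
  rw [measureReal_def, measureReal_def, ← he.2.1.measure_preimage hm.nullMeasurableSet]
  congr 1
  refine measure_congr ?_
  filter_upwards [ae_all_iff.2 fun i : Fin n => POQx.iter_conj he hT i] with t h1
  refine propext ?_
  change (∀ i : Fin n, π (e (T^[i] (e' t))) = w i) ↔
    ∀ i : Fin n, π ((fun t => e (T (e' t)))^[i] t) = w i
  simp only [h1]

end transfer

end Pool.Agent.P.MP_c1aa6a_an.ZE
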